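import Pool.Agent.Helper53.MF.Tree

set_option autoImplicit false

/-!
# MP_743d72_nt (S17427): dyadic boxes
-/

namespace Pool.Agent.Helper53.MF

noncomputable section

/-- the points of `[z, z+1)` where some nonzero integer polynomial in the dyadic box `t` is small -/
def Eset (n : ℕ) (w : ℝ) (z : ℤ) (t : Fin n → ℕ) : Set ℝ :=
  {ξ | (z : ℝ) ≤ ξ ∧ ξ < (z : ℝ) + 1 ∧ ∃ v : Fin (n + 1) → ℤ, v ≠ 0 ∧
    (∀ l : Fin n, 2 ^ (t l) ≤ max 1 |v l.succ| ∧ max 1 |v l.succ| < 2 ^ (t l + 1)) ∧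
    |tay (toR v) ξ 0| < (∏ l, (2 : ℝ) ^ (t l)) ^ (-w)}

end

end Pool.Agent.Helper53.MF
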