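import Mathlib

set_option autoImplicit false

/-!
# Hausdorff content
-/

namespace Pool.Agent.Helper53.MF

open MeasureTheory Measure Filter Topology ENNReal Metric Set

noncomputable section

/-- Hausdorff content (no restriction on the diameters) -/
def content (s : ℝ) : OuterMeasure ℝ := OuterMeasure.boundedBy fun U => (ediam U) ^ s

theorem content_le (s : ℝ) (U : Set ℝ) : content s U ≤ (ediam U) ^ s :=
  OuterMeasure.boundedBy_le U

theorem content_Ico_le {s : ℝ} (hs : 0 < s) {a b : ℝ} (hab : a ≤ b) {ρ : ℝ} (hρ : b - a ≤ ρ) :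
    content s (Ico a b) ≤ ENNReal.ofReal (ρ ^ s) := by
  refine (content_le s _).trans ?_
  have h1 : ediam (Ico a b) ≤ ENNReal.ofReal ρ := by
    refine ediam_le fun x hx y hy => ?_
    rw [edist_dist, Real.dist_eq]
    apply ENNReal.ofReal_le_ofReal
    rw [abs_le]
    constructor <;> linarith [hx.1, hx.2, hy.1, hy.2]
  refine (ENNReal.rpow_le_rpow h1 hs.le).trans ?_
  rw [ENNReal.ofReal_rpow_of_nonneg (by linarith) hs.le]

theorem hausdorff_of_content {s : ℝ} (hs : 0 < s) {A : Set ℝ} (h : content s A = 0) :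
    μH[s] A = 0 := by
  have hm0 : (fun U : Set ℝ => (ediam U) ^ s) ∅ = 0 := by
    simp [ENNReal.zero_rpow_of_pos hs]
  unfold content at h
  rw [OuterMeasure.boundedBy_eq_ofFunction hm0, OuterMeasure.ofFunction_apply] at h
  have hcov : ∀ k : ℕ, ∃ t : ℕ → Set ℝ, A ⊆ iUnion t ∧
      ∑' i, (ediam (t i)) ^ s < ((k : ℝ≥0∞) + 1)⁻¹ := by
    intro k
    have hpos : (0 : ℝ≥0∞) < ((k : ℝ≥0∞) + 1)⁻¹ := by
      rw [ENNReal.inv_pos]
      exact ENNReal.add_ne_top.2 ⟨ENNReal.natCast_ne_top k, ENNReal.one_ne_top⟩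
    rw [← h] at hpos
    simp only [iInf_lt_iff] at hpos
    obtain ⟨t, ht, hlt⟩ := hpos
    exact ⟨t, ht, hlt⟩
  choose t ht hlt using hcov
  have hlim : Tendsto (fun k : ℕ => ((k : ℝ≥0∞) + 1)⁻¹) atTop (𝓝 0) := by
    have h1 := ENNReal.tendsto_inv_nat_nhds_zero
    have h2 := h1.comp (tendsto_add_atTop_nat 1)
    refine h2.congr fun k => ?_
    simp
  have hr : Tendsto (fun k : ℕ => (((k : ℝ≥0∞) + 1)⁻¹) ^ (1 / s)) atTop (𝓝 0) := by
    have := hlim.ennrpow_const (1 / s)
    rwa [ENNReal.zero_rpow_of_pos (by positivity)] at this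
  have key := hausdorffMeasure_le_liminf_tsum (X := ℝ) (β := ℕ)
    (ι := fun _ => ℕ) s A (l := atTop) _ hr (fun k i => t k i) ?_ ?_
  · refine le_antisymm (key.trans ?_) bot_le
    calc liminf (fun k : ℕ => ∑' i : ℕ, ediam (t k i) ^ s) atTop
        ≤ liminf (fun k : ℕ => ((k : ℝ≥0∞) + 1)⁻¹) atTop :=
          liminf_le_liminf (Eventually.of_forall fun k => (hlt k).le)
      _ = 0 := hlim.liminf_eq
  · refine Eventually.of_forall fun k i => ?_
    have h1 : ediam (t k i) ^ s ≤ ((k : ℝ≥0∞) + 1)⁻¹ :=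
      (ENNReal.le_tsum (f := fun i => ediam (t k i) ^ s) i).trans (hlt k).le
    calc ediam (t k i) = (ediam (t k i) ^ s) ^ (1 / s) := by
          rw [← ENNReal.rpow_mul, mul_one_div_cancel hs.ne', ENNReal.rpow_one]
      _ ≤ _ := ENNReal.rpow_le_rpow h1 (by positivity)
  · exact Eventually.of_forall fun k => ht k

/-- Hausdorff-Cantelli -/
theorem hausdorff_cantelli_content {ι : Type*} [Countable ι] {s : ℝ} (hs : 0 < s)
    (E : ι → Set ℝ) (hE : ∑' i, content s (E i) ≠ ∞) (A : Set ℝ)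
    (hA : ∀ x ∈ A, {i | x ∈ E i}.Infinite) : μH[s] A = 0 := by
  apply hausdorff_of_content hs
  have h1 := measure_limsup_cofinite_eq_zero (μ := content s) hE
  refine le_antisymm ((measure_mono ?_).trans h1.le) bot_le
  intro x hx
  rw [mem_limsup_iff_frequently_mem]
  rw [frequently_cofinite_iff_infinite]
  exact hA x hx

end

end Pool.Agent.Helper53.MF
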