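import Pool.Agent.Helper53.MF.BoxDefs

set_option autoImplicit false

/-!
# MP_743d72_nt (S17427): the cost at the root
-/

namespace Pool.Agent.Helper53.MF

open Submodule Module Set MeasureTheory Filter Topology

noncomputable section

theorem exists_m (c r : ℝ) (hr : 1 < r) (m₁ : ℕ) : ∃ m : ℕ, m₁ ≤ m ∧ c * ((m : ℝ) + 1) ^ 2 ≤ r ^ m := by
  have h1 := tendsto_pow_const_div_const_pow_of_one_lt 2 hr
  have h2 := (h1.comp (tendsto_add_atTop_nat 1)).const_mul (c * r)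
  simp only [mul_zero] at h2
  have h3 := (h2.eventually_lt_const one_pos).and (eventually_ge_atTop m₁)
  obtain ⟨m, hm, hm1⟩ := h3.exists
  refine ⟨m, hm1, ?_⟩
  simp only [Function.comp_apply] at hm
  have hrpos : 0 < r := by linarith
  have h4 : 0 < r ^ (m + 1) := by positivity
  rw [← mul_div_assoc, div_lt_one h4] at hm
  push_cast at hm
  have h5 : r * (c * ((m : ℝ) + 1) ^ 2) < r * r ^ m := by
    have e1 : r * r ^ m = r ^ (m + 1) := by ring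
    rw [e1]
    linarith
  exact (lt_of_mul_lt_mul_left h5 hrpos.le).le

theorem root_R {n : ℕ} {z : ℤ} {C2 C3 : ℝ} (hC2 : 1 ≤ C2)
    (h3 : ∀ (T : Fin n → ℝ) (S : ℝ), (∀ l, 1 ≤ T l) → 1 ≤ S →
      ∀ W : Submodule ℚ (Fin (n + 1) → ℚ),
      (covol (Lmap T (fun _ => S) (z : ℝ)) W)⁻¹ ≤ C3 * (S * ∏ l, T l))
    (T : Fin n → ℝ) (hT : ∀ l, 1 ≤ T l) {S : ℝ} (hS : 1 ≤ C2 * S)
    (W : Submodule ℚ (Fin (n + 1) → ℚ)) :
    (covol (Lmap T (fun _ => S) (z : ℝ)) W)⁻¹ ≤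
      (4 ^ (n + 1)) ^ (n + 1) * (C3 * ((C2 * S) * ∏ l, T l)) := by
  have hSpos : 0 < S := by
    by_contra h
    push Not at h
    nlinarith
  have hTpos : ∀ l, 0 < T l := fun l => by linarith [hT l]
  have hSS : S ≤ C2 * S := by nlinarith
  have inj1 := Lmap_injective T (fun _ => C2 * S) (fun _ => by positivity) (z : ℝ)
  have inj2 := Lmap_injective T (fun _ => S) (fun _ => hSpos) (z : ℝ)
  have h1 := covol_mono inj1 inj2 (K := 4 ^ (n + 1)) (one_le_pow₀ (by norm_num))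
    (fun x => Lmap_compare T hTpos (fun _ => C2 * S) (fun _ => S) (fun _ => by positivity)
      (fun _ => hSpos) (c := (z : ℝ)) (c' := (z : ℝ)) (ρ := 0) (by simp) (by
        intro i k hik _
        rcases Nat.eq_zero_or_pos (k - i) with h | h
        · rw [h]; simpa using hSS
        · rw [zero_pow (by omega)]
          simp only [mul_zero]
          positivity) x) W
  have h2 := h3 T (C2 * S) hT hS W
  have p1 := covol_pos inj1 W
  have p2 := covol_pos inj2 W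
  have h4 : (covol (Lmap T (fun _ => S) (z : ℝ)) W)⁻¹ ≤
      (4 ^ (n + 1)) ^ (n + 1) * (covol (Lmap T (fun _ => C2 * S) (z : ℝ)) W)⁻¹ := by
    rw [inv_eq_one_div, ← div_eq_mul_inv, div_le_div_iff₀ p2 p1]
    linarith
  refine h4.trans ?_
  gcongr

/-- the cost at the root -/
theorem phi_root {n m : ℕ} {z : ℤ} {C1 C2 C3 : ℝ} (hC1 : 1 ≤ C1) (hC2 : 1 ≤ C2) (hC3 : 1 ≤ C3)
    (h3 : ∀ (T : Fin n → ℝ) (S : ℝ), (∀ l, 1 ≤ T l) → 1 ≤ S →
      ∀ W : Submodule ℚ (Fin (n + 1) → ℚ),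
      (covol (Lmap T (fun _ => S) (z : ℝ)) W)⁻¹ ≤ C3 * (S * ∏ l, T l))
    {T : Fin n → ℝ} (hT : ∀ l, 1 ≤ T l) {S : ℕ → ℝ} (hS : ∀ k, 0 < S k) (jx : ℕ → ℕ) (K : ℕ)
    (hj1 : 1 ≤ jx 0) (hjn : jx 0 ≤ n)
    {Q H τ s ε : ℝ} (hs0 : 0 < s) (hs1 : s < 1) (hτs : 1 < τ * s)
    (hε : 0 < ε) (hε1 : ε ≤ 1) (hH1 : 1 ≤ H) (hHQ : H ≤ Q)
    (hTQ : ∏ l, T l = 2 ^ n * Q) (hS1 : H ≤ C2 * S 0) (hS2 : S 0 ≤ 4 * C1 * H) :
    phi m T S jx K s (Q ^ (-(2 * τ - 1))) ε 0 (jx 0) z ≤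
      ((((n + 1 : ℕ) : ℝ) * (ε⁻¹) ^ ((n + 1) ^ 2)) *
        (4 * C1 * ((4 ^ (n + 1)) ^ (n + 1) * (C3 * C2)) * 2 ^ n)) *
        Q ^ (-((2 * (τ * s) - 2) / (n + 1))) := by
  have hQ1 : 1 ≤ Q := hH1.trans hHQ
  have hQpos : 0 < Q := by linarith
  have hS0 := hS 0
  set δ : ℝ := Q ^ (-(2 * τ - 1)) with hδ
  have hδpos : 0 < δ := by positivity
  set j := jx 0 with hj
  have hjr : (1 : ℝ) ≤ j := by exact_mod_cast hj1
  have hjr0 : (0 : ℝ) < j := by linarith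
  set R : ℝ := (4 ^ (n + 1)) ^ (n + 1) * (C3 * ((C2 * S 0) * ∏ l, T l)) with hR
  have hRb : ∀ W, (covol (Lk m T S 0 z) W)⁻¹ ≤ R := by
    intro W
    have h4 := root_R (z := z) hC2 h3 T hT (S := S 0) (hH1.trans hS1) W
    have h5 : Lk m T S 0 z = Lmap T (fun _ => S 0) (z : ℝ) := by
      unfold Lk
      rw [DD_zero]
      simp
    rw [h5]
    exact h4
  have h6 := fM_le (Lk_injective (m := m) (T := T) hS 0 z) (Tar m T S jx K 0 z) hRb hε hε1 j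
  unfold phi
  simp only [mul_zero, pow_zero, div_one, Real.one_rpow, one_mul]
  set C5 : ℝ := 4 * C1 * ((4 ^ (n + 1)) ^ (n + 1) * (C3 * C2)) * 2 ^ n with hC5
  have hC5' : 1 ≤ C5 := by
    have e1 : (1 : ℝ) ≤ 4 * C1 := by linarith
    have e2 : (1 : ℝ) ≤ (4 ^ (n + 1)) ^ (n + 1) := one_le_pow₀ (one_le_pow₀ (by norm_num))
    have e3 : (1 : ℝ) ≤ C3 * C2 := one_le_mul_of_one_le_of_one_le hC3 hC2
    have e4 : (1 : ℝ) ≤ 2 ^ n := one_le_pow₀ (by norm_num)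
    exact one_le_mul_of_one_le_of_one_le (one_le_mul_of_one_le_of_one_le e1
      (one_le_mul_of_one_le_of_one_le e2 e3)) e4
  have hprodpos : 0 < ∏ l, T l := by rw [hTQ]; positivity
  have hRpos : 0 < R := by positivity
  have key : (δ / S 0) ^ s * R ≤ C5 * Q ^ (-(2 * (τ * s) - 2)) := by
    have e1 : (δ / S 0) ^ s = δ ^ s / (S 0) ^ s := Real.div_rpow hδpos.le hS0.le s
    have e2 : (δ / S 0) ^ s * R = δ ^ s * (S 0) ^ (1 - s) *
        (((4 ^ (n + 1)) ^ (n + 1) * (C3 * C2)) * (2 ^ n * Q)) := by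
      rw [e1, hR, hTQ, Real.rpow_sub hS0, Real.rpow_one]
      have : (S 0) ^ s ≠ 0 := by positivity
      field_simp
    have e3 : (S 0) ^ (1 - s) ≤ (4 * C1) * Q ^ (1 - s) := by
      calc (S 0) ^ (1 - s) ≤ (4 * C1 * Q) ^ (1 - s) := by
            refine Real.rpow_le_rpow hS0.le ?_ (by linarith)
            refine hS2.trans ?_
            gcongr
        _ = (4 * C1) ^ (1 - s) * Q ^ (1 - s) := Real.mul_rpow (by positivity) (by positivity)
        _ ≤ (4 * C1) * Q ^ (1 - s) := by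
            gcongr
            calc (4 * C1) ^ (1 - s) ≤ (4 * C1) ^ (1 : ℝ) :=
                  Real.rpow_le_rpow_of_exponent_le (by linarith) (by linarith)
              _ = 4 * C1 := Real.rpow_one _
    rw [e2]
    calc δ ^ s * (S 0) ^ (1 - s) * (((4 ^ (n + 1)) ^ (n + 1) * (C3 * C2)) * (2 ^ n * Q))
        ≤ δ ^ s * ((4 * C1) * Q ^ (1 - s)) *
          (((4 ^ (n + 1)) ^ (n + 1) * (C3 * C2)) * (2 ^ n * Q)) := by gcongr
      _ = C5 * (δ ^ s * Q ^ (1 - s) * Q ^ (1 : ℝ)) := by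
          rw [Real.rpow_one, hC5]; ring
      _ = C5 * Q ^ (-(2 * (τ * s) - 2)) := by
          rw [hδ, ← Real.rpow_mul hQpos.le, ← Real.rpow_add hQpos, ← Real.rpow_add hQpos]
          congr 2
          ring
  have hfac : ((δ / S 0) ^ s) ^ (1 / (j : ℝ)) * R ^ (1 / (j : ℝ)) ≤
      C5 * Q ^ (-((2 * (τ * s) - 2) / (n + 1))) := by
    rw [← Real.mul_rpow (by positivity) hRpos.le]
    have hjn' : (j : ℝ) ≤ (n : ℝ) + 1 := by
      have : (j : ℝ) ≤ n := by exact_mod_cast hjn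
      linarith
    calc ((δ / S 0) ^ s * R) ^ (1 / (j : ℝ))
        ≤ (C5 * Q ^ (-(2 * (τ * s) - 2))) ^ (1 / (j : ℝ)) :=
          Real.rpow_le_rpow (by positivity) key (by positivity)
      _ = C5 ^ (1 / (j : ℝ)) * (Q ^ (-(2 * (τ * s) - 2))) ^ (1 / (j : ℝ)) :=
          Real.mul_rpow (by positivity) (by positivity)
      _ ≤ C5 * Q ^ (-((2 * (τ * s) - 2) / (n + 1))) := by
          have e5 : C5 ^ (1 / (j : ℝ)) ≤ C5 := by
            calc C5 ^ (1 / (j : ℝ)) ≤ C5 ^ (1 : ℝ) := by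
                  refine Real.rpow_le_rpow_of_exponent_le hC5' ?_
                  rw [div_le_one hjr0]
                  exact hjr
              _ = C5 := Real.rpow_one _
          have e6 : (Q ^ (-(2 * (τ * s) - 2))) ^ (1 / (j : ℝ)) ≤
              Q ^ (-((2 * (τ * s) - 2) / (n + 1))) := by
            rw [← Real.rpow_mul hQpos.le]
            refine Real.rpow_le_rpow_of_exponent_le hQ1 ?_
            rw [mul_one_div, neg_div, neg_le_neg_iff]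
            have : 0 < 2 * (τ * s) - 2 := by linarith
            gcongr
          gcongr
  calc ((δ / S 0) ^ s) ^ (1 / (j : ℝ)) * fM (Lk m T S 0 z) (Tar m T S jx K 0 z) ε j
      ≤ ((δ / S 0) ^ s) ^ (1 / (j : ℝ)) *
        (((n + 1 : ℕ) : ℝ) * (ε⁻¹) ^ ((n + 1) ^ 2) * R ^ (1 / (j : ℝ))) := by gcongr
    _ = (((n + 1 : ℕ) : ℝ) * (ε⁻¹) ^ ((n + 1) ^ 2)) *
        (((δ / S 0) ^ s) ^ (1 / (j : ℝ)) * R ^ (1 / (j : ℝ))) := by ring
    _ ≤ (((n + 1 : ℕ) : ℝ) * (ε⁻¹) ^ ((n + 1) ^ 2)) *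
        (C5 * Q ^ (-((2 * (τ * s) - 2) / (n + 1)))) := by gcongr
    _ = _ := by ring

end

end Pool.Agent.Helper53.MF
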