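import Pool.Agent.Helper53.MF.Count1

set_option autoImplicit false

/-!
# MP_743d72_nt (S17427): codes of paths
-/

namespace Pool.Agent.Helper53.MF

open Submodule Module Set MeasureTheory Filter Topology

noncomputable section

theorem Adm.congr {n m : ℕ} {S S' : ℕ → ℝ} {jx jx' : ℕ → ℕ} {K : ℕ} (h : Adm n m S jx K)
    (hS : ∀ k ≤ K, S' k = S k) (hj : ∀ k ≤ K, jx' k = jx k) (hpos : ∀ k, 0 < S' k) :
    Adm n m S' jx' K where
  pos := hpos
  anti k hk := by
    rw [hS k (by omega), hS (k + 1) (by omega)]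
    exact h.anti k hk
  low k hk := by
    rw [hS k (by omega), hS (k + 1) (by omega)]
    exact h.low k hk
  jpos k hk := by
    rw [hj k hk]
    exact h.jpos k hk
  jle k hk := by
    rw [hj k hk]
    exact h.jle k hk
  janti k hk := by
    rw [hj k (by omega), hj (k + 1) (by omega)]
    exact h.janti k hk
  step k hk := by
    rw [hj k (by omega), hj (k + 1) (by omega), hS k (by omega), hS (k + 1) (by omega)]
    exact h.step k hk

/-- codes of paths: the length, the first threshold, the decrements and the indices -/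
abbrev Code (n m M D : ℕ) : Type :=
  Fin (M + 1) × Fin (2 * D + 1) × (Fin (M + 1) → Fin (n * m + 1) × Fin (n + 1))

/-- thresholds of a code -/
def cu {n m M D : ℕ} (h : ℤ) (q : Code n m M D) (k : ℕ) : ℤ :=
  h - D + (q.2.1 : ℕ) - ∑ i ∈ Finset.range k, if hi : i < M + 1 then (((q.2.2 ⟨i, hi⟩).1 : ℕ) : ℤ) else 0

/-- indices of a code -/
def cj {n m M D : ℕ} (q : Code n m M D) (k : ℕ) : ℕ :=
  if hi : k < M + 1 then ((q.2.2 ⟨k, hi⟩).2 : ℕ) else 0

theorem exists_code {n m M D : ℕ} {K : ℕ} (hK : K ≤ M) (h : ℤ) (u : ℕ → ℤ) (jx : ℕ → ℕ)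
    (hu1 : h - D ≤ u 0) (hu2 : u 0 ≤ h + D)
    (hu : ∀ k < K, 0 ≤ u k - u (k + 1) ∧ u k - u (k + 1) ≤ n * m)
    (hj : ∀ k ≤ K, jx k ≤ n) :
    ∃ q : Code n m M D, (q.1 : ℕ) = K ∧ (∀ k ≤ K, cu h q k = u k) ∧ ∀ k ≤ K, cj q k = jx k := by
  refine ⟨⟨⟨K, by omega⟩, ⟨(u 0 - (h - D)).toNat, ?_⟩, fun i =>
    (⟨if (i : ℕ) < K then (u i - u (i + 1)).toNat else 0, ?_⟩,
      ⟨if (i : ℕ) ≤ K then jx i else 0, ?_⟩)⟩, rfl, ?_, ?_⟩
  · omega
  · split_ifs with hi
    · have := hu i hi
      have h3 : (u i - u (i + 1)).toNat < n * m + 1 ↔ (u i - u (i + 1)) < ((n * m + 1 : ℕ) : ℤ) := by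
        rw [Int.toNat_lt this.1]
      rw [h3]
      push_cast
      linarith [this.2]
    · omega
  · split_ifs with hi
    · have := hj i hi
      omega
    · omega
  · intro k hk
    unfold cu
    have hsum : ∀ k ≤ K, (∑ i ∈ Finset.range k, if hi : i < M + 1 then
        (((if i < K then (u i - u (i + 1)).toNat else 0 : ℕ)) : ℤ) else 0) = u 0 - u k := by
      intro k
      induction k with
      | zero => intro _; simp
      | succ k ih =>
        intro hk
        rw [Finset.sum_range_succ, ih (by omega)]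
        have h1 : k < M + 1 := by omega
        have h2 : k < K := by omega
        simp only [h1, h2, dite_true, if_true]
        rw [Int.toNat_of_nonneg (hu k h2).1]
        ring
    have h1 := hsum k hk
    simp only at h1 ⊢
    rw [h1, Int.toNat_of_nonneg (by linarith)]
    ring
  · intro k hk
    unfold cj
    have h1 : k < M + 1 := by omega
    simp only [h1, dite_true, hk, if_true]

theorem card_Code (n m M D : ℕ) : Fintype.card (Code n m M D) =
    (M + 1) * ((2 * D + 1) * ((n * m + 1) * (n + 1)) ^ (M + 1)) := by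
  simp [Code, Fintype.card_prod, Fintype.card_fin, Fintype.card_fun]

end

end Pool.Agent.Helper53.MF
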