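import Pool.Agent.Helper53.MF.Count2
import Pool.Agent.Helper92.MF.Path
import Pool.Agent.Helper35.MF.Poly

set_option autoImplicit false

/-!
# MP_743d72_nt (S17427): the cost of a dyadic box
-/

namespace Pool.Agent.Helper53.MF

open Submodule Module Set MeasureTheory Filter Topology

noncomputable section

/-- the cost of one path -/
theorem fset_bound {n m : ℕ} {z : ℤ} {C1 C2 C3 Cp : ℝ} (hC1 : 1 ≤ C1) (hC2 : 1 ≤ C2)
    (hC3 : 1 ≤ C3) (hCp : 1 ≤ Cp)
    (h3 : ∀ (T : Fin n → ℝ) (S : ℝ), (∀ l, 1 ≤ T l) → 1 ≤ S →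
      ∀ W : Submodule ℚ (Fin (n + 1) → ℚ),
      (covol (Lmap T (fun _ => S) (z : ℝ)) W)⁻¹ ≤ C3 * (S * ∏ l, T l))
    {m₀ : ℕ} (hm : m₀ ≤ m) (hmn : n + 3 ≤ m)
    (hpoly : ∀ m : ℕ, m₀ ≤ m →
      ∀ j : ℕ, 1 ≤ j → j ≤ n → ∀ b : ℕ → ℝ, 1 / 4 ≤ |b j| →
      (∀ i, j < i → i ≤ n → |b i| ≤ 2 ^ (n + 1) / 2 ^ m) →
      ∑ r ∈ Finset.range (2 ^ m),
        ((max 1 (2 ^ (j * m) * |∑ i ∈ Finset.range (n + 1), b i * ((r : ℝ) / 2 ^ m) ^ i|))⁻¹)
          ^ (1 / (j : ℝ)) ≤ Cp * (m + 1))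
    {τ s ε : ℝ} (hs0 : 0 < s) (hs1 : s < 1) (hτs : 1 < τ * s)
    (hε : 0 < ε) (hε1 : ε ≤ 1)
    (hεs : ∀ j ≤ n, ε * (((n + 1 : ℕ) : ℝ) * ((2 ^ m : ℕ) : ℝ) * kn n ^ (n + 1) *
      (2 * kn n * (kn n ^ (n + 1) * (((2 ^ m : ℕ) : ℝ)) ^ j))) ≤ 1) :
    ∃ W0 : ℝ, 1 ≤ W0 ∧ ∀ (T : Fin n → ℝ) (S : ℕ → ℝ) (jx : ℕ → ℕ) (K M : ℕ) (Q H : ℝ),
      (∀ l, 1 ≤ T l) → Adm n m S jx K → K ≤ M → 1 ≤ H → H ≤ Q → ∏ l, T l = 2 ^ n * Q →
      H ≤ C2 * S 0 → S 0 ≤ 4 * C1 * H → S K ≤ 2 ^ (n * m + 1) * Q ^ (-(2 * τ - 1)) →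
      content s (Fset m T S jx K 0 z) ≤ ENNReal.ofReal (W0 *
        (kn n ^ (n + 1 + 1) * (Cp * (m + 1)) + 2) ^ M *
        Q ^ (-((2 * (τ * s) - 2) / (n + 1)))) := by
  have hkn := one_le_kn n
  set B : ℝ := kn n ^ (n + 1 + 1) * (Cp * (m + 1)) + 2 with hB
  have hB' : 1 ≤ B := by
    have : 0 ≤ kn n ^ (n + 1 + 1) * (Cp * (m + 1)) := by positivity
    linarith
  set C12 : ℝ := (2 ^ m * 2 ^ (n * m) * kn n ^ (n + 1)) *
        (((n + 1 : ℕ) : ℝ) * (ε⁻¹) ^ ((n + 1) ^ 2)) with hC12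
  have h1ε : (1 : ℝ) ≤ (ε⁻¹) ^ ((n + 1) ^ 2) := one_le_pow₀ ((one_le_inv₀ hε).2 hε1)
  have h1n : (1 : ℝ) ≤ ((n + 1 : ℕ) : ℝ) := by push_cast; linarith [Nat.cast_nonneg (α := ℝ) n]
  have hC12' : 1 ≤ C12 := by
    have h1 : (1 : ℝ) ≤ 2 ^ m := one_le_pow₀ (by norm_num)
    have h2 : (1 : ℝ) ≤ 2 ^ (n * m) := one_le_pow₀ (by norm_num)
    have h3 : (1 : ℝ) ≤ kn n ^ (n + 1) := one_le_pow₀ hkn
    exact one_le_mul_of_one_le_of_one_le (one_le_mul_of_one_le_of_one_le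
      (one_le_mul_of_one_le_of_one_le h1 h2) h3) (one_le_mul_of_one_le_of_one_le h1n h1ε)
  set A : ℝ := 2 ^ (n * m + 1) * kn n with hA
  have hA' : 1 ≤ A := one_le_mul_of_one_le_of_one_le (one_le_pow₀ (by norm_num)) hkn
  set R0 : ℝ := ((((n + 1 : ℕ) : ℝ) * (ε⁻¹) ^ ((n + 1) ^ 2)) *
        (4 * C1 * ((4 ^ (n + 1)) ^ (n + 1) * (C3 * C2)) * 2 ^ n)) with hR0
  have hR0' : 1 ≤ R0 := by
    have e1 : (1 : ℝ) ≤ 4 * C1 := by linarith
    have e2 : (1 : ℝ) ≤ (4 ^ (n + 1)) ^ (n + 1) := one_le_pow₀ (one_le_pow₀ (by norm_num))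
    have e3 : (1 : ℝ) ≤ C3 * C2 := one_le_mul_of_one_le_of_one_le hC3 hC2
    have e4 : (1 : ℝ) ≤ 2 ^ n := one_le_pow₀ (by norm_num)
    exact one_le_mul_of_one_le_of_one_le (one_le_mul_of_one_le_of_one_le h1n h1ε)
      (one_le_mul_of_one_le_of_one_le (one_le_mul_of_one_le_of_one_le e1
      (one_le_mul_of_one_le_of_one_le e2 e3)) e4)
  refine ⟨C12 ^ (2 * n + 1) * A * R0, ?_, ?_⟩
  · exact one_le_mul_of_one_le_of_one_le
      (one_le_mul_of_one_le_of_one_le (one_le_pow₀ hC12') hA') hR0'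
  intro T S jx K M Q H hT hadm hKM hH1 hHQ hTQ hS1 hS2 hend
  have hQ1 : 1 ≤ Q := hH1.trans hHQ
  have hQpos : 0 < Q := by linarith
  have hTpos : ∀ l, 0 < T l := fun l => by linarith [hT l]
  have h4 := tree_bound (n := n) (m := m) (T := T) (S := S) (jx := jx) (K := K) hCp hm hmn hpoly
    hTpos hadm hs0 hs1.le (δ := Q ^ (-(2 * τ - 1))) (by positivity) hε hε1 hεs hend K 0 (by simp) z
  refine h4.trans (ENNReal.ofReal_le_ofReal ?_)
  have h5 := phi_root (m := m) (z := z) hC1 hC2 hC3 h3 hT hadm.pos jx K (hadm.jpos 0 (by omega))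
    (hadm.jle 0 (by omega)) (τ := τ) hs0 hs1 hτs hε hε1 hH1 hHQ hTQ hS1 hS2
  calc C12 ^ pot n jx 0 * B ^ K * A * phi m T S jx K s (Q ^ (-(2 * τ - 1))) ε 0 (jx 0) z
      ≤ C12 ^ pot n jx 0 * B ^ K * A * (R0 * Q ^ (-((2 * (τ * s) - 2) / (n + 1)))) := by
        gcongr
    _ ≤ C12 ^ (2 * n + 1) * B ^ M * A * (R0 * Q ^ (-((2 * (τ * s) - 2) / (n + 1)))) := by
        have e1 : B ^ K ≤ B ^ M := pow_le_pow_right₀ hB' hKM
        have e2 : pot n jx 0 = 2 * n + 1 := rfl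
        rw [e2]
        gcongr
    _ = _ := by ring

/-- geometry of a point of `Eset` -/
theorem eset_facts {n : ℕ} {z : ℤ} {C1 C2 : ℝ} (hC1 : 1 ≤ C1) (hC2 : 1 ≤ C2)
    (htay : ∀ (x : Fin (n + 1) → ℝ) (H ξ : ℝ), 0 ≤ H →
      (z : ℝ) ≤ ξ → ξ ≤ z + 1 → (∀ l : Fin n, |x l.succ| ≤ H) → ∀ i, 1 ≤ i →
      |tay x ξ i| ≤ C1 * H)
    (hcoef : ∀ (x : Fin (n + 1) → ℝ) (a ξ : ℝ),
      (z : ℝ) ≤ ξ → ξ ≤ z + 1 → (∀ i, i ≤ n → |tay x ξ i| ≤ a) → ∀ k, |x k| ≤ C2 * a)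
    (t : Fin n → ℕ) {v : Fin (n + 1) → ℤ} (hv0 : v ≠ 0)
    (hv : ∀ l : Fin n, 2 ^ (t l) ≤ max 1 |v l.succ| ∧ max 1 |v l.succ| < 2 ^ (t l + 1))
    {ξ : ℝ} (h1 : (z : ℝ) ≤ ξ) (h2 : ξ ≤ z + 1) :
    (∀ l : Fin n, |toR v l.succ| ≤ 2 ^ (t l + 1)) ∧
    (∀ i, 1 ≤ i → |tay (toR v) ξ i| ≤ C1 * (2 * 2 ^ (Finset.univ.sup t))) ∧
    (∀ a : ℝ, (∀ i ≤ n, |tay (toR v) ξ i| ≤ a) → 2 ^ (Finset.univ.sup t) ≤ C2 * a) := by
  have hb : ∀ l : Fin n, |toR v l.succ| ≤ 2 ^ (t l + 1) := by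
    intro l
    have h3 : |v l.succ| ≤ 2 ^ (t l + 1) := (le_max_right _ _).trans (hv l).2.le
    unfold toR
    exact_mod_cast h3
  refine ⟨hb, ?_, ?_⟩
  · refine htay (toR v) _ ξ (by positivity) h1 h2 fun l => (hb l).trans ?_
    rw [pow_succ, mul_comm]
    have : t l ≤ Finset.univ.sup t := Finset.le_sup (Finset.mem_univ l)
    gcongr
    norm_num
  · intro a ha
    have h3 := hcoef (toR v) a ξ h1 h2 ha
    obtain ⟨k, hk⟩ : ∃ k, (2 : ℝ) ^ (Finset.univ.sup t) ≤ |toR v k| := by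
      rcases Nat.eq_zero_or_pos (Finset.univ.sup t) with h0 | h0
      · rw [h0, pow_zero]
        obtain ⟨k, hk⟩ := Function.ne_iff.1 hv0
        refine ⟨k, ?_⟩
        have : (1 : ℤ) ≤ |v k| := Int.one_le_abs hk
        unfold toR
        exact_mod_cast this
      · have hne : (Finset.univ : Finset (Fin n)).Nonempty := by
          by_contra hne
          rw [Finset.not_nonempty_iff_eq_empty] at hne
          rw [hne] at h0
          simp at h0
        obtain ⟨l, -, hl⟩ := Finset.exists_mem_eq_sup Finset.univ hne t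
        refine ⟨l.succ, ?_⟩
        have h4 := (hv l).1
        rw [hl]
        rw [hl] at h0
        have h5 : (2 : ℤ) ≤ 2 ^ (t l) := by
          calc (2 : ℤ) = 2 ^ 1 := by norm_num
            _ ≤ 2 ^ (t l) := pow_le_pow_right₀ (by norm_num) h0
        have h6 : (2 : ℤ) ^ (t l) ≤ |v l.succ| := by
          rcases le_max_iff.1 h4 with h7 | h7
          · linarith
          · exact h7
        unfold toR
        exact_mod_cast h6
    exact hk.trans (h3 k)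

theorem alg1 (D G W B q : ℝ) (M : ℕ) : 2 ^ M * ((2 * D + 1) * G ^ (M + 1)) * (W * B ^ M * q) =
    ((2 * D + 1) * G) * W * (2 * G * B) ^ M * q := by
  rw [mul_pow, mul_pow]; ring

set_option maxHeartbeats 2000000 in
theorem box_bound (n : ℕ) (τ : ℝ) (hτ : 1 < τ) (s : ℝ) (hs1 : 1 / τ < s) (hs2 : s < 1) (z : ℤ) :
    ∃ C κ : ℝ, 0 ≤ C ∧ 0 < κ ∧ ∀ t : Fin n → ℕ, content s (Eset n (2 * τ - 1) z t) ≤
        ENNReal.ofReal (C * (∏ l, (2 : ℝ) ^ (t l)) ^ (-κ)) := by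
  have hτ0 : 0 < τ := by linarith
  have hs0 : 0 < s := lt_trans (by positivity) hs1
  have hτs : 1 < τ * s := by
    rw [div_lt_iff₀ hτ0] at hs1
    linarith
  obtain ⟨C1, hC1, htay⟩ := tay_le n z
  obtain ⟨C2, hC2, hcoef⟩ := coeff_le_tay n z
  obtain ⟨C3, hC3, hroot⟩ := root_bound n z
  obtain ⟨Cp, hCp, m₀, hpoly⟩ := poly_grid n (2 ^ (n + 1))
  set θ : ℝ := 2 * (τ * s) - 2 with hθ
  have hθpos : 0 < θ := by rw [hθ]; linarith
  have hn1 : (0 : ℝ) < (n : ℝ) + 1 := by positivity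
  set κ : ℝ := θ / (2 * ((n : ℝ) + 1)) with hκ
  have hκpos : 0 < κ := by positivity
  have hκ2 : θ / ((n : ℝ) + 1) = 2 * κ := by rw [hκ]; field_simp
  set β : ℝ := κ / (2 * τ) with hβ
  have hβpos : 0 < β := by positivity
  have hr : (1 : ℝ) < 2 ^ β := Real.one_lt_rpow (by norm_num) hβpos
  have hkn := one_le_kn n
  obtain ⟨m, hm1, hm2⟩ := exists_m (2 * (((n : ℝ) + 1) ^ 2 *
    (kn n ^ (n + 1 + 1) * Cp + 2))) (2 ^ β) hr (max m₀ (n + 3))
  have hm : m₀ ≤ m := (le_max_left _ _).trans hm1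
  have hmn : n + 3 ≤ m := (le_max_right _ _).trans hm1
  have hmpos : 0 < m := by omega
  have hmpos' : (0 : ℝ) < m := by exact_mod_cast hmpos
  set B : ℝ := kn n ^ (n + 1 + 1) * (Cp * (m + 1)) + 2 with hB
  have hB' : 1 ≤ B := by
    have : 0 ≤ kn n ^ (n + 1 + 1) * (Cp * (m + 1)) := by positivity
    linarith
  set G : ℝ := ((n : ℝ) * m + 1) * (n + 1) with hG
  have hG' : 1 ≤ G := by
    have h1 : (1 : ℝ) ≤ (n : ℝ) * m + 1 := by
      have : (0 : ℝ) ≤ (n : ℝ) * m := by positivity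
      linarith
    have h2 : (1 : ℝ) ≤ (n : ℝ) + 1 := by linarith [Nat.cast_nonneg (α := ℝ) n]
    exact one_le_mul_of_one_le_of_one_le h1 h2
  have hGB : 2 * G * B ≤ ((2 : ℝ) ^ β) ^ m := by
    refine le_trans ?_ hm2
    have h1 : G ≤ ((n : ℝ) + 1) ^ 2 * (m + 1) := by
      rw [hG]
      have : (n : ℝ) * m + 1 ≤ (n + 1) * (m + 1) := by nlinarith [Nat.cast_nonneg (α := ℝ) n]
      nlinarith
    have h2 : B ≤ (kn n ^ (n + 1 + 1) * Cp + 2) * (m + 1) := by
      rw [hB]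
      nlinarith
    calc 2 * G * B ≤ 2 * (((n : ℝ) + 1) ^ 2 * (m + 1)) *
          ((kn n ^ (n + 1 + 1) * Cp + 2) * (m + 1)) := by gcongr
      _ = _ := by ring
  -- epsilon
  set Qε : ℝ := ((n + 1 : ℕ) : ℝ) * ((2 ^ m : ℕ) : ℝ) * kn n ^ (n + 1) *
      (2 * kn n * (kn n ^ (n + 1) * (((2 ^ m : ℕ) : ℝ)) ^ n)) with hQε
  have h2m : (1 : ℝ) ≤ ((2 ^ m : ℕ) : ℝ) := by exact_mod_cast Nat.one_le_two_pow
  have hQε1 : 1 ≤ Qε := by
    have e1 : (1 : ℝ) ≤ ((n + 1 : ℕ) : ℝ) := by exact_mod_cast Nat.succ_le_succ (Nat.zero_le n)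
    have e2 : (1 : ℝ) ≤ kn n ^ (n + 1) := one_le_pow₀ hkn
    have e3 : (1 : ℝ) ≤ 2 * kn n := by linarith
    have e4 : (1 : ℝ) ≤ (((2 ^ m : ℕ) : ℝ)) ^ n := one_le_pow₀ h2m
    exact one_le_mul_of_one_le_of_one_le (one_le_mul_of_one_le_of_one_le
      (one_le_mul_of_one_le_of_one_le e1 h2m) e2) (one_le_mul_of_one_le_of_one_le e3
      (one_le_mul_of_one_le_of_one_le e2 e4))
  have hQεpos : 0 < Qε := by linarith
  set ε : ℝ := 1 / Qε with hε
  have hεpos : 0 < ε := by positivity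
  have hε1 : ε ≤ 1 := by rw [hε, div_le_one hQεpos]; exact hQε1
  have hεs : ∀ j ≤ n, ε * (((n + 1 : ℕ) : ℝ) * ((2 ^ m : ℕ) : ℝ) * kn n ^ (n + 1) *
      (2 * kn n * (kn n ^ (n + 1) * (((2 ^ m : ℕ) : ℝ)) ^ j))) ≤ 1 := by
    intro j hj
    have e1 : (((2 ^ m : ℕ) : ℝ)) ^ j ≤ (((2 ^ m : ℕ) : ℝ)) ^ n := pow_le_pow_right₀ h2m hj
    have e2 : (((n + 1 : ℕ) : ℝ) * ((2 ^ m : ℕ) : ℝ) * kn n ^ (n + 1) *
      (2 * kn n * (kn n ^ (n + 1) * (((2 ^ m : ℕ) : ℝ)) ^ j))) ≤ Qε := by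
      rw [hQε]
      gcongr
    rw [hε, one_div, inv_mul_le_iff₀ hQεpos, mul_one]
    exact e2
  obtain ⟨W0, hW0, hW⟩ := fset_bound (z := z) hC1 hC2 hC3 hCp hroot hm hmn hpoly hs0 hs2 hτs
    hεpos hε1 hεs
  -- D
  obtain ⟨D, hD⟩ := pow_unbounded_of_one_lt (4 * C1 + C2) (by norm_num : (1 : ℝ) < 2)
  set Cfin : ℝ := ((2 * D + 1) * G) * (4 * C1) ^ β * W0 + C2 ^ (κ / (2 * τ - 1)) with hCfin
  refine ⟨Cfin, κ, by positivity, hκpos, fun t => ?_⟩
  set Q : ℝ := ∏ l, (2 : ℝ) ^ (t l) with hQ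
  have hQ1 : 1 ≤ Q := by
    rw [hQ]
    exact Finset.one_le_prod fun l _ => one_le_pow₀ (by norm_num)
  have hQpos : 0 < Q := by linarith
  set δ : ℝ := Q ^ (-(2 * τ - 1)) with hδ
  have hδpos : 0 < δ := by positivity
  set h : ℕ := Finset.univ.sup t with hh
  have hHQ : (2 : ℝ) ^ h ≤ Q := by
    rcases Nat.eq_zero_or_pos h with h0 | h0
    · rw [h0, pow_zero]; exact hQ1
    · have hne : (Finset.univ : Finset (Fin n)).Nonempty := by
        by_contra hne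
        rw [Finset.not_nonempty_iff_eq_empty] at hne
        rw [hh, hne] at h0
        simp at h0
      obtain ⟨l, -, hl⟩ := Finset.exists_mem_eq_sup Finset.univ hne t
      rw [hh, hl, hQ]
      have hsplit := Finset.mul_prod_erase Finset.univ (fun l => (2 : ℝ) ^ (t l)) (Finset.mem_univ l)
      rw [← hsplit]
      have : 1 ≤ ∏ x ∈ Finset.univ.erase l, (2 : ℝ) ^ (t x) :=
        Finset.one_le_prod fun l _ => one_le_pow₀ (by norm_num)
      exact le_mul_of_one_le_right (by positivity) this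
  by_cases hcase : C2 * δ < 1
  swap
  · -- trivial bound
    push Not at hcase
    have h1 : content s (Eset n (2 * τ - 1) z t) ≤ ENNReal.ofReal ((1 : ℝ) ^ s) := by
      refine (measure_mono (t := Ico (z : ℝ) ((z : ℝ) + 1)) ?_).trans
        (content_Ico_le hs0 (by linarith) (by linarith))
      rintro ξ ⟨h1, h2, -⟩
      exact ⟨h1, h2⟩
    refine h1.trans (ENNReal.ofReal_le_ofReal ?_)
    rw [Real.one_rpow]
    have hw : 0 < 2 * τ - 1 := by linarith
    have h2 : Q ^ (2 * τ - 1) ≤ C2 := by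
      rw [hδ, Real.rpow_neg hQpos.le] at hcase
      have h3 : 0 < Q ^ (2 * τ - 1) := by positivity
      rw [← div_eq_mul_inv, le_div_iff₀ h3] at hcase
      linarith
    have h3 : Q ^ κ ≤ C2 ^ (κ / (2 * τ - 1)) := by
      calc Q ^ κ = (Q ^ (2 * τ - 1)) ^ (κ / (2 * τ - 1)) := by
            rw [← Real.rpow_mul hQpos.le]
            congr 1
            field_simp
        _ ≤ _ := Real.rpow_le_rpow (by positivity) h2 (by positivity)
    have h4 : 1 ≤ C2 ^ (κ / (2 * τ - 1)) * Q ^ (-κ) := by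
      rw [Real.rpow_neg hQpos.le, ← div_eq_mul_inv, le_div_iff₀ (by positivity)]
      linarith
    refine h4.trans ?_
    have h5 : C2 ^ (κ / (2 * τ - 1)) ≤ Cfin := by
      rw [hCfin]
      have : 0 ≤ ((2 * D + 1) * G) * (4 * C1) ^ β * W0 := by positivity
      linarith
    gcongr
  · -- main case
    set X : ℝ := Real.logb 2 (4 * C1 * Q ^ (2 * τ)) / m with hX
    have hXarg : 1 ≤ 4 * C1 * Q ^ (2 * τ) :=
      one_le_mul_of_one_le_of_one_le (by linarith) (Real.one_le_rpow hQ1 (by linarith))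
    have hX0 : 0 ≤ X := by
      rw [hX]
      apply div_nonneg _ hmpos'.le
      exact Real.logb_nonneg (by norm_num) hXarg
    set M : ℕ := ⌊X⌋₊ with hM
    set T : Fin n → ℝ := fun l => 2 ^ (t l + 1) with hT
    have hT1 : ∀ l, 1 ≤ T l := fun l => one_le_pow₀ (by norm_num)
    have hTQ : ∏ l, T l = 2 ^ n * Q := by
      rw [hT, hQ]
      simp only [pow_succ]
      rw [Finset.prod_mul_distrib]
      simp only [Finset.prod_const, Finset.card_univ, Fintype.card_fin]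
      ring
    have h2pos : ∀ (q : Code n m M D) (k : ℕ), (0 : ℝ) < 2 ^ (cu (h : ℤ) q k) := fun q k => by
      positivity
    set P : Code n m M D → Prop := fun q =>
      Adm n m (fun k => (2 : ℝ) ^ (cu (h : ℤ) q k)) (cj q) (q.1 : ℕ) ∧
      (2 : ℝ) ^ h ≤ C2 * (2 : ℝ) ^ (cu (h : ℤ) q 0) ∧
      (2 : ℝ) ^ (cu (h : ℤ) q 0) ≤ 4 * C1 * 2 ^ h ∧
      (2 : ℝ) ^ (cu (h : ℤ) q (q.1 : ℕ)) ≤ 2 ^ (n * m + 1) * δ with hP
    set Aq : Code n m M D → Set ℝ := fun q => {ξ | P q ∧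
      ξ ∈ Fset m T (fun k => (2 : ℝ) ^ (cu (h : ℤ) q k)) (cj q) (q.1 : ℕ) 0 z} with hAq
    have hAqb : ∀ q, content s (Aq q) ≤ ENNReal.ofReal (W0 * B ^ M *
        Q ^ (-(θ / (n + 1)))) := by
      intro q
      by_cases hPq : P q
      · refine (measure_mono (t := Fset m T (fun k => (2 : ℝ) ^ (cu (h : ℤ) q k)) (cj q)
          (q.1 : ℕ) 0 z) (fun ξ hξ => hξ.2)).trans ?_
        obtain ⟨p1, p2, p3, p4⟩ := hPq
        exact hW T _ (cj q) (q.1 : ℕ) M Q (2 ^ h) hT1 p1 (by have := q.1.2; omega)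
          (one_le_pow₀ (by norm_num)) hHQ hTQ p2 p3 p4
      · have : Aq q = ∅ := by
          rw [Set.eq_empty_iff_forall_notMem]
          intro ξ hξ
          exact hPq hξ.1
        rw [this]
        simp
    have hcover : Eset n (2 * τ - 1) z t ⊆ ⋃ q, Aq q := by
      rintro ξ ⟨hz1, hz2, v, hv0, hvb, hvδ⟩
      obtain ⟨f1, f2, f3⟩ := eset_facts hC1 hC2 htay hcoef t hv0 hvb hz1 hz2.le
      rw [← hh] at f2 f3
      have hex : ∃ i ≤ n, δ < |tay (toR v) ξ i| := by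
        by_contra hcon
        push Not at hcon
        have h4 := f3 δ hcon
        have h5 : (1 : ℝ) ≤ 2 ^ h := one_le_pow₀ (by norm_num)
        linarith
      obtain ⟨K, u, jx, adm, hend, hδu, hb1, hb2, hinc⟩ :=
        exists_path (m := m) (by omega) (toR v) ξ δ hδpos hvδ hex
      have hS0low : (2 : ℝ) ^ h ≤ C2 * (2 : ℝ) ^ (u 0) := by
        apply f3
        intro i hi
        have := hb1 0 (by omega) i hi
        simpa using this
      have hS0up : (2 : ℝ) ^ (u 0) ≤ 4 * C1 * 2 ^ h := by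
        have h4 := hb2 0 (by omega)
        have h5 := f2 (jx 0) (adm.jpos 0 (by omega))
        simp only [mul_zero, pow_zero, div_one, one_pow, mul_one] at h4
        linarith
      have hsum : ∀ k ≤ K, (m : ℤ) * k ≤ u 0 - u k := by
        intro k
        induction k with
        | zero => intro _; simp
        | succ k ih =>
          intro hk
          have h4 := ih (by omega)
          have h5 := (hinc k (by omega)).1
          push_cast
          linarith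
      have hKM : K ≤ M := by
        rw [hM]
        apply Nat.le_floor
        rw [hX, le_div_iff₀ hmpos', ← Real.rpow_le_rpow_left_iff (by norm_num : (1 : ℝ) < 2),
          Real.rpow_logb (by norm_num) (by norm_num) (by linarith)]
        have h4 := hsum K le_rfl
        have h5 : (2 : ℝ) ^ ((K : ℝ) * m) ≤ 2 ^ (u 0 - u K) := by
          rw [← Real.rpow_intCast]
          apply Real.rpow_le_rpow_of_exponent_le (by norm_num)
          have : ((m : ℤ) * K : ℤ) ≤ u 0 - u K := h4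
          have h6 : (((m : ℤ) * K : ℤ) : ℝ) ≤ ((u 0 - u K : ℤ) : ℝ) := by exact_mod_cast this
          push_cast at h6 ⊢
          linarith
        refine h5.trans ?_
        rw [zpow_sub₀ (by norm_num), div_le_iff₀ (by positivity)]
        have h6 := hδu K le_rfl
        calc (2 : ℝ) ^ (u 0) ≤ 4 * C1 * 2 ^ h := hS0up
          _ ≤ 4 * C1 * Q := by gcongr
          _ = 4 * C1 * Q ^ (2 * τ) * δ := by
            rw [hδ, mul_assoc (4 * C1), ← Real.rpow_add hQpos]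
            have : 2 * τ + -(2 * τ - 1) = 1 := by ring
            rw [this, Real.rpow_one]
          _ ≤ 4 * C1 * Q ^ (2 * τ) * 2 ^ (u K) := by gcongr
      have hDlow : (h : ℤ) - D ≤ u 0 := by
        have h4 : (2 : ℝ) ^ (h : ℤ) ≤ 2 ^ ((D : ℤ) + u 0) := by
          rw [zpow_add₀ (by norm_num), zpow_natCast, zpow_natCast]
          refine hS0low.trans ?_
          have : C2 ≤ 2 ^ D := by linarith
          gcongr
        have h5 := (zpow_le_zpow_iff_right₀ (by norm_num : (1 : ℝ) < 2)).1 h4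
        linarith
      have hDup : u 0 ≤ (h : ℤ) + D := by
        have h4 : (2 : ℝ) ^ (u 0) ≤ 2 ^ ((h : ℤ) + D) := by
          rw [zpow_add₀ (by norm_num), zpow_natCast, zpow_natCast]
          refine hS0up.trans ?_
          rw [mul_comm]
          have : 4 * C1 ≤ 2 ^ D := by linarith
          gcongr
        exact (zpow_le_zpow_iff_right₀ (by norm_num : (1 : ℝ) < 2)).1 h4
      obtain ⟨q, hq1, hq2, hq3⟩ := exists_code (n := n) (m := m) (M := M) (D := D) hKM (h : ℤ) u jx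
        hDlow hDup (fun k hk => by
          have := hinc k hk
          constructor
          · have h0 : (0 : ℤ) ≤ m := Int.natCast_nonneg m
            linarith [this.1]
          · exact this.2) (fun k hk => adm.jle k hk)
      refine Set.mem_iUnion.2 ⟨q, ⟨?_, ?_, ?_, ?_⟩, ?_⟩
      · rw [hq1]
        exact adm.congr (fun k hk => by simp only [hq2 k hk]) hq3 (fun k => h2pos q k)
      · rw [hq2 0 (by omega)]; exact hS0low
      · rw [hq2 0 (by omega)]; exact hS0up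
      · rw [hq1, hq2 K le_rfl]; exact hend
      · refine ⟨?_, v, hv0, f1, ?_, ?_⟩
        · unfold arc
          simp only [mul_zero, pow_zero, div_one]
          exact ⟨hz1, hz2⟩
        · intro k hk i hi
          rw [hq1] at hk
          simp only [hq2 k hk]
          exact hb1 k hk i hi
        · intro k hk
          rw [hq1] at hk
          simp only [hq2 k hk, hq3 k hk]
          exact hb2 k hk
    -- conclusion
    calc content s (Eset n (2 * τ - 1) z t) ≤ content s (⋃ q, Aq q) := measure_mono hcover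
      _ ≤ ∑' q, content s (Aq q) := measure_iUnion_le _
      _ = ∑ q, content s (Aq q) := tsum_fintype _
      _ ≤ ∑ q : Code n m M D, ENNReal.ofReal (W0 * B ^ M * Q ^ (-(θ / (n + 1)))) :=
        Finset.sum_le_sum fun q _ => hAqb q
      _ = ENNReal.ofReal ((Fintype.card (Code n m M D) : ℝ) *
          (W0 * B ^ M * Q ^ (-(θ / (n + 1))))) := by
        rw [Finset.sum_const, Finset.card_univ, nsmul_eq_mul,
          ENNReal.ofReal_mul (Nat.cast_nonneg _), ENNReal.ofReal_natCast]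
      _ ≤ ENNReal.ofReal (Cfin * Q ^ (-κ)) := by
        apply ENNReal.ofReal_le_ofReal
        rw [card_Code]
        push_cast
        have e1 : ((M : ℝ) + 1) ≤ 2 ^ M := by
          have : M + 1 ≤ 2 ^ M := Nat.lt_two_pow_self
          exact_mod_cast this
        have e2 : (((n : ℝ) * m + 1) * (n + 1)) = G := by rw [hG]
        have e3 : (2 * G * B) ^ M ≤ (4 * C1) ^ β * Q ^ κ := by
          calc (2 * G * B) ^ M ≤ (((2 : ℝ) ^ β) ^ m) ^ M := by gcongr
            _ = (((2 : ℝ) ^ β) ^ m) ^ (M : ℝ) := (Real.rpow_natCast _ _).symm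
            _ ≤ (((2 : ℝ) ^ β) ^ m) ^ X := by
                refine Real.rpow_le_rpow_of_exponent_le (one_le_pow₀ hr.le) ?_
                exact Nat.floor_le hX0
            _ = (2 : ℝ) ^ (Real.logb 2 (4 * C1 * Q ^ (2 * τ)) * β) := by
                have hb0 : (0 : ℝ) ≤ 2 ^ β := by positivity
                rw [← Real.rpow_natCast (2 ^ β) m, ← Real.rpow_mul hb0,
                  ← Real.rpow_mul (by norm_num : (0 : ℝ) ≤ 2), hX]
                congr 1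
                field_simp
            _ = (4 * C1 * Q ^ (2 * τ)) ^ β := by
                rw [Real.rpow_mul (by norm_num), Real.rpow_logb (by norm_num) (by norm_num)
                  (by linarith)]
            _ = (4 * C1) ^ β * Q ^ κ := by
                rw [Real.mul_rpow (by positivity) (by positivity), ← Real.rpow_mul hQpos.le]
                congr 2
                rw [hβ]
                field_simp
        have e4 : Q ^ κ * Q ^ (-(θ / ((n : ℝ) + 1))) = Q ^ (-κ) := by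
          rw [← Real.rpow_add hQpos, hκ2]
          congr 1
          ring
        rw [e2]
        calc ((M : ℝ) + 1) * ((2 * D + 1) * G ^ (M + 1)) *
              (W0 * B ^ M * Q ^ (-(θ / ((n : ℝ) + 1))))
            ≤ 2 ^ M * ((2 * D + 1) * G ^ (M + 1)) *
              (W0 * B ^ M * Q ^ (-(θ / ((n : ℝ) + 1)))) := by gcongr
          _ = ((2 * D + 1) * G) * W0 * (2 * G * B) ^ M * Q ^ (-(θ / ((n : ℝ) + 1))) :=
              alg1 _ _ _ _ _ _
          _ ≤ ((2 * D + 1) * G) * W0 * ((4 * C1) ^ β * Q ^ κ) * Q ^ (-(θ / ((n : ℝ) + 1))) := by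
              gcongr
          _ = (((2 * D + 1) * G) * (4 * C1) ^ β * W0) * (Q ^ κ * Q ^ (-(θ / ((n : ℝ) + 1)))) := by
              ring
          _ = (((2 * D + 1) * G) * (4 * C1) ^ β * W0) * Q ^ (-κ) := by rw [e4]
          _ ≤ Cfin * Q ^ (-κ) := by
              have : 0 ≤ C2 ^ (κ / (2 * τ - 1)) := by positivity
              gcongr
              rw [hCfin]
              linarith

end

end Pool.Agent.Helper53.MF
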