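import Mathlib

set_option autoImplicit false

/-!
# MP_743d72_nt (S17427): definitions for the upper bound.

`vol v` is the volume of the parallelepiped spanned by a finite family,
`covol L W` the covolume, in the norm `‖L ·‖`, of the lattice of integer points of the rational
subspace `W`; `alpha` and `fM` are the heights (Margulis functions) of Eskin-Margulis-Mozes,
restricted to the subspaces which contain a target.
-/

namespace Pool.Agent.Helper53.MF

open Submodule Module

noncomputable section

variable {E : Type*} [NormedAddCommGroup E] [InnerProductSpace ℝ E]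

/-- volume of the parallelepiped spanned by the family `v` -/
def vol {ι : Type*} [Fintype ι] [DecidableEq ι] (v : ι → E) : ℝ :=
  Real.sqrt (Matrix.gram ℝ v).det

/-- integer vector as rational vector -/
def toQ {N : ℕ} (x : Fin N → ℤ) : Fin N → ℚ := fun i => (x i : ℚ)

/-- integer vector as real vector -/
def toR {N : ℕ} (x : Fin N → ℤ) : Fin N → ℝ := fun i => (x i : ℝ)

/-- rational subspace spanned by a family of integer vectors -/
def qspan {N : ℕ} {ι : Type*} (y : ι → Fin N → ℤ) : Submodule ℚ (Fin N → ℚ) :=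
  span ℚ (Set.range fun i => toQ (y i))

/-- the smallest volume of a family of integer vectors which is a basis of `W`,
i.e. the covolume of the lattice of integer points of `W`, in the norm `‖L ·‖`. -/
def covol {N : ℕ} (L : (Fin N → ℝ) →ₗ[ℝ] E) (W : Submodule ℚ (Fin N → ℚ)) : ℝ :=
  sInf {a : ℝ | ∃ y : Fin (finrank ℚ W) → (Fin N → ℤ), qspan y = W ∧
    a = vol (fun i => L (toR (y i)))}

/-- `α_r`: supremum of `1 / covol` over the rational subspaces of dimension `r` which contain
a target -/
def alpha {N : ℕ} (L : (Fin N → ℝ) →ₗ[ℝ] E) (Tar : Set (Fin N → ℤ)) (r : ℕ) : ℝ :=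
  sSup {a : ℝ | ∃ W : Submodule ℚ (Fin N → ℚ), finrank ℚ W = r ∧ (∃ v ∈ Tar, toQ v ∈ W) ∧
    a = (covol L W)⁻¹}

/-- the Margulis function -/
def fM {N : ℕ} (L : (Fin N → ℝ) →ₗ[ℝ] E) (Tar : Set (Fin N → ℤ)) (ε : ℝ) (j : ℕ) : ℝ :=
  ∑ r ∈ Finset.Icc 1 N, (ε⁻¹) ^ (r ^ 2) * (alpha L Tar r) ^ (1 / (j : ℝ))

end

end Pool.Agent.Helper53.MF
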