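import Pool.Agent.Helper53.MF.Defs

set_option autoImplicit false

/-!
# MP_743d72_nt (S17427): Taylor coefficients and the norm maps `Lmap`.
-/

namespace Pool.Agent.Helper53.MF

noncomputable section

/-- the `i`-th Taylor coefficient at `c` of the polynomial `∑ x_k X^k` -/
def tay {n : ℕ} (x : Fin (n + 1) → ℝ) (c : ℝ) (i : ℕ) : ℝ :=
  ∑ k : Fin (n + 1), (((k : ℕ).choose i : ℕ) : ℝ) * x k * c ^ ((k : ℕ) - i)

/-- the norm maps: coefficients `a_l` (`1 ≤ l ≤ n`) divided by `T_l`, and Taylor coefficients at `c`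
divided by `D_i` -/
def Lmap {n : ℕ} (T : Fin n → ℝ) (D : ℕ → ℝ) (c : ℝ) :
    (Fin (n + 1) → ℝ) →ₗ[ℝ] EuclideanSpace ℝ (Fin n ⊕ Fin (n + 1)) where
  toFun x := WithLp.toLp 2 (Sum.elim (fun l : Fin n => x l.succ / T l)
    (fun i : Fin (n + 1) => tay x c i / D i))
  map_add' x y := by
    ext i
    rcases i with l | i
    · simp [add_div]
    · simp [tay, mul_add, add_mul, Finset.sum_add_distrib, add_div]
  map_smul' r x := by
    ext i
    rcases i with l | i
    · simp [mul_div_assoc]
    · simp only [tay, Pi.smul_apply, smul_eq_mul, RingHom.id_apply, PiLp.smul_apply, Sum.elim_inr]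
      rw [← mul_div_assoc, Finset.mul_sum]
      congr 1
      refine Finset.sum_congr rfl fun k _ => ?_
      ring

end

end Pool.Agent.Helper53.MF
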