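import Pool.Agent.Helper53.MF.Count3
import Pool.Agent.Helper92.MF.Final
import Pool.Agent.Helper52.MF.JB

set_option autoImplicit false

/-!
# MP_743d72_nt (S17427): the Hausdorff dimension, for all degrees
-/

namespace Pool.Agent.Helper53.MF

open Polynomial in
/-- linear polynomials: the lower bound (Jarnik-Besicovitch) -/
theorem lower (n : ℕ) (hn : 1 ≤ n) (τ : ℝ) (hτ : 1 < τ) :
    ENNReal.ofReal (1 / τ) ≤ dimH {ξ : ℝ | {P : Polynomial ℤ | P.natDegree ≤ n ∧
          ((∏ i ∈ Finset.Icc 1 n, max (1 : ℤ) |P.coeff i| : ℤ) : ℝ) ^ (2 * τ - 1)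
            * |(Polynomial.aeval ξ P : ℝ)| < 1}.Infinite} := by
  have h1 := jarnik_besicovitch (2 * τ - 1) (by linarith)
  have h2 : (2 : ℝ) / (2 * τ - 1 + 1) = 1 / τ := by
    have : τ ≠ 0 := by linarith
    field_simp
    ring
  rw [h2] at h1
  refine h1.trans (dimH_mono ?_)
  intro x hx
  simp only [Set.mem_ofPred_eq] at hx ⊢
  have hinj : Set.InjOn (fun pq : ℤ × ℤ => (C pq.2 * X - C pq.1 : ℤ[X]))
      {pq : ℤ × ℤ | 1 ≤ pq.2 ∧ (pq.2 : ℝ) ^ (2 * τ - 1) * |pq.2 * x - pq.1| < 1} := by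
    intro a _ b _ hab
    simp only at hab
    have e0 := congrArg (fun P : ℤ[X] => P.coeff 0) hab
    have e1 := congrArg (fun P : ℤ[X] => P.coeff 1) hab
    simp only [coeff_sub, coeff_C_mul, coeff_X_zero, mul_zero, coeff_C_zero, zero_sub,
      neg_inj] at e0
    simp only [coeff_sub, coeff_C_mul, coeff_X_one, mul_one, coeff_C_succ, sub_zero] at e1
    exact Prod.ext e0 e1
  refine (hx.image hinj).mono ?_
  rintro P ⟨pq, ⟨hq, hpq⟩, rfl⟩
  refine ⟨?_, ?_⟩
  · refine le_trans ?_ hn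
    refine (natDegree_sub_le _ _).trans ?_
    simp only [natDegree_C, max_le_iff, zero_le, and_true]
    exact (natDegree_C_mul_le _ _).trans natDegree_X_le
  · have hprod : (∏ i ∈ Finset.Icc 1 n, max (1 : ℤ) |(C pq.2 * X - C pq.1 : ℤ[X]).coeff i| : ℤ)
        = pq.2 := by
      rw [Finset.prod_eq_single 1]
      · simp only [coeff_sub, coeff_C_mul, coeff_X_one, mul_one, coeff_C_succ, sub_zero]
        rw [abs_of_pos (by linarith), max_eq_right hq]
      · intro i hi hi1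
        rw [Finset.mem_Icc] at hi
        obtain ⟨k, rfl⟩ : ∃ k, i = k + 1 := ⟨i - 1, by omega⟩
        have hk : k + 1 ≠ 1 := hi1
        simp only [coeff_sub, coeff_C_mul, coeff_C_succ, sub_zero, coeff_X]
        rw [if_neg (fun h => hk h.symm)]
        simp
      · intro h
        exact absurd (Finset.mem_Icc.2 ⟨le_rfl, hn⟩) h
    rw [hprod]
    have hev : (aeval x (C pq.2 * X - C pq.1 : ℤ[X]) : ℝ) = pq.2 * x - pq.1 := by
      simp
    rw [hev]
    exact hpq

/-- the Hausdorff dimension of the set of multiplicatively approximable numbers -/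
theorem dimH_K (n : ℕ) (hn : 1 ≤ n) (τ : ℝ) (hτ : 1 < τ) :
    dimH {ξ : ℝ | {P : Polynomial ℤ | P.natDegree ≤ n ∧
          ((∏ i ∈ Finset.Icc 1 n, max (1 : ℤ) |P.coeff i| : ℤ) : ℝ) ^ (2 * τ - 1)
            * |(Polynomial.aeval ξ P : ℝ)| < 1}.Infinite}
        = ENNReal.ofReal (1 / τ) :=
  le_antisymm (dimH_le_of_box n τ hτ (fun s hs1 hs2 z => box_bound n τ hτ s hs1 hs2 z))
    (lower n hn τ hτ)

end Pool.Agent.Helper53.MF
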