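import Pool.Agent.Helper53.MF.TreeDefs
import Pool.Agent.Helper98.MF.Geom
import Pool.Agent.Helper38.MF.Emm

set_option autoImplicit false

/-!
# MP_743d72_nt (S17427): the step inequalities at a node of the dyadic tree
-/

namespace Pool.Agent.Helper53.MF

open Submodule Module Set

noncomputable section

theorem exists_covol_bound {N : ℕ} {E : Type*} [NormedAddCommGroup E] [InnerProductSpace ℝ E]
    {L : (Fin N → ℝ) →ₗ[ℝ] E} (hL : Function.Injective L) :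
    ∃ R : ℝ, ∀ W, (covol L W)⁻¹ ≤ R := by
  classical
  set b : Fin N → Fin N → ℤ := fun i => Pi.single i 1 with hb
  have hspan : qspan b = ⊤ := by
    have h1 : (fun i => toQ (b i)) = ⇑(Pi.basisFun ℚ (Fin N)) := by
      funext i k
      simp only [toQ, hb, Pi.basisFun_apply, Pi.single_apply]
      split_ifs <;> simp
    unfold qspan
    rw [h1]
    exact (Pi.basisFun ℚ (Fin N)).span_eq
  obtain ⟨K, hK1, hK⟩ : ∃ K : ℝ, 1 ≤ K ∧ ∀ i, ‖L (toR (b i))‖ ≤ K := by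
    refine ⟨1 + ∑ i, ‖L (toR (b i))‖, ?_, fun i => ?_⟩
    · have : 0 ≤ ∑ i, ‖L (toR (b i))‖ := Finset.sum_nonneg fun _ _ => norm_nonneg _
      linarith
    · have := Finset.single_le_sum (f := fun i => ‖L (toR (b i))‖) (fun _ _ => norm_nonneg _)
        (Finset.mem_univ i)
      linarith
  refine ⟨K ^ N / covol L ⊤, fun W => ?_⟩
  have h1 := covol_top_le hL hK1 b hspan hK W
  have h2 := covol_pos hL W
  have h3 := covol_pos hL (⊤ : Submodule ℚ (Fin N → ℚ))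
  rw [inv_eq_one_div, div_le_div_iff₀ h2 h3]
  linarith

variable {n m : ℕ} {T : Fin n → ℝ} {S : ℕ → ℝ} {jx : ℕ → ℕ} {K : ℕ}

theorem Lk_injective (hS : ∀ k, 0 < S k) (k : ℕ) (b : ℤ) :
    Function.Injective (Lk m T S k b) :=
  Lmap_injective T _ (DD_pos hS k) _

theorem child_center (k : ℕ) (b : ℤ) (r : ℕ) :
    (((2 ^ m * b + (r : ℤ) : ℤ) : ℝ)) / 2 ^ (m * (k + 1)) =
      (b : ℝ) / 2 ^ (m * k) + ((r : ℝ) / 2 ^ m) * (1 / 2 ^ (m * k)) := by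
  have hpm : (2 : ℝ) ^ (m * (k + 1)) = 2 ^ m * 2 ^ (m * k) := by
    rw [← pow_add]; ring_nf
  rw [hpm]
  push_cast
  field_simp

theorem Lk_compare (hT : ∀ l, 0 < T l) (hS : ∀ k, 0 < S k) (k : ℕ) (b : ℤ) (r : Fin (2 ^ m))
    (z : Fin (n + 1) → ℝ) :
    ‖Lk m T S k b z‖ ≤ 4 ^ (n + 1) * ‖Lk m T S (k + 1) (2 ^ m * b + (r : ℕ)) z‖ := by
  unfold Lk
  refine Lmap_compare T hT _ _ (DD_pos hS k) (DD_pos hS (k + 1)) (ρ := 1 / 2 ^ (m * k)) ?_ ?_ z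
  · rw [child_center]
    have hr : ((r : ℕ) : ℝ) / 2 ^ m ≤ 1 := by
      rw [div_le_one (by positivity)]
      have := r.2.le
      exact_mod_cast this
    have h0 : (0 : ℝ) ≤ ((r : ℕ) : ℝ) / 2 ^ m := by positivity
    have h1 : (0 : ℝ) < 1 / 2 ^ (m * k) := by positivity
    rw [abs_le]
    constructor
    · nlinarith
    · nlinarith
  · intro i l hil _
    calc DD m S (k + 1) l * (1 / 2 ^ (m * k)) ^ (l - i)
        ≤ DD m S k l * (1 / 2 ^ (m * k)) ^ (l - i) := by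
          gcongr
          exact DD_anti k l
      _ ≤ DD m S k i := DD_shift hS k hil

theorem arc_dist {k : ℕ} {b : ℤ} {ξ : ℝ} (h : ξ ∈ arc m k b) :
    |ξ - (b : ℝ) / 2 ^ (m * k)| ≤ 1 / 2 ^ (m * k) := by
  obtain ⟨h1, h2⟩ := h
  rw [add_div] at h2
  rw [abs_le]
  have : (0 : ℝ) < 1 / 2 ^ (m * k) := by positivity
  constructor <;> linarith

theorem Lk_target (hT : ∀ l, 0 < T l) (hS : ∀ k, 0 < S k) {k : ℕ} (hk : k ≤ K) {b : ℤ}
    {v : Fin (n + 1) → ℤ} (hv : v ∈ Tar m T S jx K k b) :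
    ‖Lk m T S k b (toR v)‖ ≤ 4 ^ (n + 1) := by
  obtain ⟨ξ, hξ, -, h1, h2, -⟩ := hv
  refine Lmap_le T hT _ (DD_pos hS k) (ξ := ξ) (ρ := 1 / 2 ^ (m * k)) (arc_dist hξ) ?_ _ h1 ?_
  · intro i l hil _
    exact DD_shift hS k hil
  · intro i hi
    exact le_DD fun k' hk' => h2 k' (hk'.trans hk) i hi

/-- a good step -/
theorem good_sum {C : ℝ} {m₀ : ℕ} (hm : m₀ ≤ m) (hmn : n + 3 ≤ m)
    (hpoly : ∀ m : ℕ, m₀ ≤ m →
      ∀ j : ℕ, 1 ≤ j → j ≤ n → ∀ b : ℕ → ℝ, 1 / 4 ≤ |b j| →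
      (∀ i, j < i → i ≤ n → |b i| ≤ 2 ^ (n + 1) / 2 ^ m) →
      ∑ r ∈ Finset.range (2 ^ m),
        ((max 1 (2 ^ (j * m) * |∑ i ∈ Finset.range (n + 1), b i * ((r : ℝ) / 2 ^ m) ^ i|))⁻¹)
          ^ (1 / (j : ℝ)) ≤ C * (m + 1))
    (hS : ∀ k, 0 < S k)
    (hanti : ∀ k < K, S (k + 1) ≤ S k) {j : ℕ} (hj1 : 1 ≤ j) (hjn : j ≤ n) {k : ℕ}
    (hk : k + 2 ≤ K) (hjk : jx (k + 1) = j)
    (hS1 : S k = 2 ^ (j * m) * S (k + 1)) (hS2 : S (k + 1) = 2 ^ (j * m) * S (k + 2))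
    (b : ℤ) {v : Fin (n + 1) → ℤ} (hv : v ∈ Tar m T S jx K (k + 1) b) :
    ∑ r : Fin (2 ^ m), ((max 1 ‖Lk m T S (k + 2) (2 ^ m * b + (r : ℕ)) (toR v)‖)⁻¹)
      ^ (1 / (j : ℝ)) ≤ C * (m + 1) := by
  obtain ⟨ξ, hξ, hv0, h1, h2, h3⟩ := hv
  set c : ℝ := (b : ℝ) / 2 ^ (m * (k + 1)) with hc
  set ρ : ℝ := 1 / 2 ^ (m * (k + 1)) with hρ
  have hρpos : 0 < ρ := by positivity
  have hρm : 2 ^ m * ρ = 1 / 2 ^ (m * k) := by
    rw [hρ]
    have hpm : (2 : ℝ) ^ (m * (k + 1)) = 2 ^ m * 2 ^ (m * k) := by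
      rw [← pow_add]; ring_nf
    rw [hpm]
    field_simp
  obtain ⟨g1, g2⟩ := good_coeff (n := n) (m := m) (j := j) hmn hjn (toR v) (ξ := ξ) (c := c)
    (ρ := ρ) (S := S (k + 1)) hρpos (hS _) (arc_dist hξ) (by
      intro i hi
      rw [hρm, ← hS1]
      have h4 := h2 k (by omega) i hi
      calc |tay (toR v) ξ i| * (1 / 2 ^ (m * k)) ^ i
          ≤ (S k * 2 ^ (m * k * i)) * (1 / 2 ^ (m * k)) ^ i := by gcongr
        _ = S k := by
          rw [pow_mul 2 (m * k) i, mul_assoc, ← mul_pow]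
          rw [mul_one_div_cancel (by positivity)]
          simp) (by
      have h4 := h3 (k + 1) (by omega)
      rw [hjk] at h4
      exact h4)
  have h5 := hpoly m hm j hj1 hjn (fun i => tay (toR v) c i * ρ ^ i / S (k + 1)) g1 g2
  refine le_trans ?_ h5
  rw [← Fin.sum_univ_eq_sum_range (fun r => ((max 1 (2 ^ (j * m) * |∑ i ∈ Finset.range (n + 1),
    (tay (toR v) c i * ρ ^ i / S (k + 1)) * ((r : ℝ) / 2 ^ m) ^ i|))⁻¹) ^ (1 / (j : ℝ))) (2 ^ m)]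
  refine Finset.sum_le_sum fun r _ => ?_
  refine Real.rpow_le_rpow (by positivity) ?_ (by positivity)
  refine inv_anti₀ (by positivity) (max_le_max le_rfl ?_)
  have h6 := le_norm_Lmap T (DD m S (k + 2)) (DD_pos hS (k + 2))
    (((2 ^ m * b + ((r : ℕ) : ℤ) : ℤ) : ℝ) / 2 ^ (m * (k + 2))) (toR v)
  refine le_trans ?_ h6
  rw [child_center (k + 1) b r, tay_child (toR v) (S := S (k + 1)) (hS _).ne',
    DD_index_zero (fun k' hk' => hanti k' (by omega)), abs_mul, abs_of_pos (hS (k + 1))]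
  rw [mul_div_right_comm]
  have h7 : S (k + 1) / S (k + 2) = 2 ^ (j * m) := by
    rw [hS2]
    have := (hS (k + 2)).ne'
    field_simp
  rw [h7]

/-- the number of components of the cost -/
abbrev kn (n : ℕ) : ℝ := 4 ^ (n + 1)

theorem one_le_kn (n : ℕ) : (1 : ℝ) ≤ kn n := one_le_pow₀ (by norm_num)

/-- the cost function at a node, with exponent `1/j` -/
def phi {n : ℕ} (m : ℕ) (T : Fin n → ℝ) (S : ℕ → ℝ) (jx : ℕ → ℕ) (K : ℕ) (s δ ε : ℝ)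
    (k j : ℕ) (b : ℤ) : ℝ :=
  (1 / 2 ^ (m * k)) ^ s * (((δ / S k) ^ s) ^ (1 / (j : ℝ)) *
    fM (Lk m T S k b) (Tar m T S jx K k b) ε j)

theorem phi_nonneg (hS : ∀ k, 0 < S k) {s δ ε : ℝ} (hδ : 0 < δ) (hε : 0 < ε) (k j : ℕ) (b : ℤ) :
    0 ≤ phi m T S jx K s δ ε k j b := by
  have h1 := fM_nonneg (Lk_injective (m := m) (T := T) hS k b) (Tar m T S jx K k b) hε j
  have h2 := hS k
  unfold phi
  positivity

/-- a good step -/
theorem phi_good {C : ℝ} {m₀ : ℕ} (hm : m₀ ≤ m) (hmn : n + 3 ≤ m)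
    (hpoly : ∀ m : ℕ, m₀ ≤ m →
      ∀ j : ℕ, 1 ≤ j → j ≤ n → ∀ b : ℕ → ℝ, 1 / 4 ≤ |b j| →
      (∀ i, j < i → i ≤ n → |b i| ≤ 2 ^ (n + 1) / 2 ^ m) →
      ∑ r ∈ Finset.range (2 ^ m),
        ((max 1 (2 ^ (j * m) * |∑ i ∈ Finset.range (n + 1), b i * ((r : ℝ) / 2 ^ m) ^ i|))⁻¹)
          ^ (1 / (j : ℝ)) ≤ C * (m + 1))
    (hT : ∀ l, 0 < T l) (hS : ∀ k, 0 < S k)
    (hanti : ∀ k < K, S (k + 1) ≤ S k) {j : ℕ} (hj1 : 1 ≤ j) (hjn : j ≤ n) {k : ℕ}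
    (hk : k + 2 ≤ K) (hjk : jx (k + 1) = j)
    (hS1 : S k = 2 ^ (j * m) * S (k + 1)) (hS2 : S (k + 1) = 2 ^ (j * m) * S (k + 2))
    {s δ ε : ℝ} (hδ : 0 < δ) (hε : 0 < ε) (hε1 : ε ≤ 1)
    (hεs : ε * (((n + 1 : ℕ) : ℝ) * ((2 ^ m : ℕ) : ℝ) * kn n ^ (n + 1) *
      (2 * kn n * (kn n ^ (n + 1) * (((2 ^ m : ℕ) : ℝ)) ^ j))) ≤ 1)
    (b : ℤ) :
    ∑ r : Fin (2 ^ m), phi m T S jx K s δ ε (k + 2) j (2 ^ m * b + (r : ℕ)) ≤
      (kn n ^ (n + 1 + 1) * (C * (m + 1)) + 2) * phi m T S jx K s δ ε (k + 1) j b := by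
  obtain ⟨R, hR⟩ := exists_covol_bound (Lk_injective (m := m) (T := T) hS (k + 1) b)
  have h1 := emm_step (one_le_kn n) hj1 (M := 2 ^ m) Nat.one_le_two_pow hε hε1 hεs
    (L := Lk m T S (k + 1) b) (Lk_injective hS (k + 1) b)
    (L' := fun r : Fin (2 ^ m) => Lk m T S (k + 2) (2 ^ m * b + (r : ℕ)))
    (fun r => Lk_injective hS (k + 2) _)
    (fun r z => Lk_compare hT hS (k + 1) b r z)
    (Tar := Tar m T S jx K (k + 1) b)
    (Tar' := fun r : Fin (2 ^ m) => Tar m T S jx K (k + 2) (2 ^ m * b + (r : ℕ)))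
    (fun r => Tar_child r)
    (fun v hv => by obtain ⟨ξ, hξ, hv0, -⟩ := hv; exact hv0)
    (fun v hv => Lk_target hT hS (by omega) hv)
    (B := C * (m + 1))
    (fun v hv => good_sum hm hmn hpoly hS hanti hj1 hjn hk hjk hS1 hS2 b hv)
    hR
  unfold phi
  have hpre : (1 / (2 : ℝ) ^ (m * (k + 2))) ^ s * ((δ / S (k + 2)) ^ s) ^ (1 / (j : ℝ)) =
      (1 / (2 : ℝ) ^ (m * (k + 1))) ^ s * ((δ / S (k + 1)) ^ s) ^ (1 / (j : ℝ)) := by
    have e1 : (1 / (2 : ℝ) ^ (m * (k + 1))) = 2 ^ m * (1 / (2 : ℝ) ^ (m * (k + 2))) := by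
      have : (2 : ℝ) ^ (m * (k + 2)) = 2 ^ m * 2 ^ (m * (k + 1)) := by
        rw [← pow_add]; ring_nf
      rw [this]
      field_simp
    have e2 : δ / S (k + 2) = 2 ^ (j * m) * (δ / S (k + 1)) := by
      rw [hS2]
      have := (hS (k + 2)).ne'
      field_simp
    have hpos1 := hS (k + 1)
    rw [e1, e2, Real.mul_rpow (by positivity) (by positivity),
      Real.mul_rpow (by positivity) (by positivity),
      Real.mul_rpow (by positivity) (by positivity)]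
    have e3 : (((2 : ℝ) ^ (j * m)) ^ s) ^ (1 / (j : ℝ)) = ((2 : ℝ) ^ m) ^ s := by
      have hj0 : (j : ℝ) ≠ 0 := by positivity
      have e4 : (2 : ℝ) ^ (j * m) = ((2 : ℝ) ^ m) ^ (j : ℝ) := by
        rw [Real.rpow_natCast, ← pow_mul, mul_comm]
      rw [e4, ← Real.rpow_mul (by positivity), ← Real.rpow_mul (by positivity)]
      congr 1
      field_simp
    rw [e3]
    ring
  calc ∑ r : Fin (2 ^ m), (1 / (2 : ℝ) ^ (m * (k + 2))) ^ s *
        (((δ / S (k + 2)) ^ s) ^ (1 / (j : ℝ)) *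
          fM (Lk m T S (k + 2) (2 ^ m * b + (r : ℕ)))
            (Tar m T S jx K (k + 2) (2 ^ m * b + (r : ℕ))) ε j)
      = ((1 / (2 : ℝ) ^ (m * (k + 2))) ^ s * ((δ / S (k + 2)) ^ s) ^ (1 / (j : ℝ))) *
        ∑ r : Fin (2 ^ m), fM (Lk m T S (k + 2) (2 ^ m * b + (r : ℕ)))
            (Tar m T S jx K (k + 2) (2 ^ m * b + (r : ℕ))) ε j := by
        rw [Finset.mul_sum]
        refine Finset.sum_congr rfl fun r _ => ?_
        ring
    _ ≤ ((1 / (2 : ℝ) ^ (m * (k + 2))) ^ s * ((δ / S (k + 2)) ^ s) ^ (1 / (j : ℝ))) *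
        ((kn n ^ (n + 1 + 1) * (C * (m + 1)) + 2) *
          fM (Lk m T S (k + 1) b) (Tar m T S jx K (k + 1) b) ε j) := by
        have := hS (k + 2)
        exact mul_le_mul_of_nonneg_left h1 (by positivity)
    _ = _ := by rw [hpre]; ring

/-- a bad step, without change of exponent -/
theorem phi_bad (hT : ∀ l, 0 < T l) (hS : ∀ k, 0 < S k) {j : ℕ} (hj1 : 1 ≤ j) {k : ℕ}
    (hlow : S k ≤ 2 ^ (n * m) * S (k + 1))
    {s δ ε : ℝ} (hs : 0 ≤ s) (hs1 : s ≤ 1) (hδ : 0 < δ) (hε : 0 < ε) (b : ℤ) :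
    ∑ r : Fin (2 ^ m), phi m T S jx K s δ ε (k + 1) j (2 ^ m * b + (r : ℕ)) ≤
      (2 ^ m * 2 ^ (n * m) * kn n ^ (n + 1)) * phi m T S jx K s δ ε k j b := by
  have key : ∀ r : Fin (2 ^ m), phi m T S jx K s δ ε (k + 1) j (2 ^ m * b + (r : ℕ)) ≤
      (2 ^ (n * m) * kn n ^ (n + 1)) * phi m T S jx K s δ ε k j b := by
    intro r
    obtain ⟨R, hR⟩ := exists_covol_bound (Lk_injective (m := m) (T := T) hS k b)
    have h1 := fM_mono (Lk_injective (m := m) (T := T) hS k b)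
      (Lk_injective (m := m) (T := T) hS (k + 1) (2 ^ m * b + (r : ℕ))) (one_le_kn n)
      (fun z => Lk_compare hT hS k b r z)
      (Tar_child (m := m) (T := T) (S := S) (jx := jx) (K := K) (k := k) (b := b) r) hR hε hj1
    have h0 := fM_nonneg (Lk_injective (m := m) (T := T) hS (k + 1) (2 ^ m * b + (r : ℕ)))
      (Tar m T S jx K (k + 1) (2 ^ m * b + (r : ℕ))) hε j
    have hk0 := hS k
    have hk1 := hS (k + 1)
    have e1 : (1 / (2 : ℝ) ^ (m * (k + 1))) ^ s ≤ (1 / (2 : ℝ) ^ (m * k)) ^ s := by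
      refine Real.rpow_le_rpow (by positivity) ?_ hs
      apply one_div_le_one_div_of_le (by positivity)
      exact pow_le_pow_right₀ (by norm_num) (Nat.mul_le_mul_left _ (Nat.le_succ k))
    have e2 : ((δ / S (k + 1)) ^ s) ^ (1 / (j : ℝ)) ≤
        2 ^ (n * m) * ((δ / S k) ^ s) ^ (1 / (j : ℝ)) := by
      have h2 : δ / S (k + 1) ≤ 2 ^ (n * m) * (δ / S k) := by
        rw [div_le_iff₀ hk1]
        calc δ = (δ / S k) * S k := by field_simp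
          _ ≤ (δ / S k) * (2 ^ (n * m) * S (k + 1)) := by gcongr
          _ = _ := by ring
      have hj0 : (1 : ℝ) ≤ j := by exact_mod_cast hj1
      calc ((δ / S (k + 1)) ^ s) ^ (1 / (j : ℝ))
          ≤ ((2 ^ (n * m) * (δ / S k)) ^ s) ^ (1 / (j : ℝ)) := by
            refine Real.rpow_le_rpow (by positivity) ?_ (by positivity)
            exact Real.rpow_le_rpow (by positivity) h2 hs
        _ = (((2 : ℝ) ^ (n * m)) ^ s) ^ (1 / (j : ℝ)) * ((δ / S k) ^ s) ^ (1 / (j : ℝ)) := by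
            rw [Real.mul_rpow (by positivity) (by positivity),
              Real.mul_rpow (by positivity) (by positivity)]
        _ ≤ 2 ^ (n * m) * ((δ / S k) ^ s) ^ (1 / (j : ℝ)) := by
            gcongr
            rw [← Real.rpow_mul (by positivity)]
            have h3 : s * (1 / (j : ℝ)) ≤ 1 := by
              rw [mul_one_div, div_le_one (by linarith)]
              linarith
            calc ((2 : ℝ) ^ (n * m)) ^ (s * (1 / (j : ℝ))) ≤ ((2 : ℝ) ^ (n * m)) ^ (1 : ℝ) :=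
                  Real.rpow_le_rpow_of_exponent_le (one_le_pow₀ (by norm_num)) h3
              _ = _ := Real.rpow_one _
    unfold phi
    calc (1 / (2 : ℝ) ^ (m * (k + 1))) ^ s * (((δ / S (k + 1)) ^ s) ^ (1 / (j : ℝ)) *
          fM (Lk m T S (k + 1) (2 ^ m * b + (r : ℕ)))
            (Tar m T S jx K (k + 1) (2 ^ m * b + (r : ℕ))) ε j)
        ≤ (1 / (2 : ℝ) ^ (m * k)) ^ s * ((2 ^ (n * m) * ((δ / S k) ^ s) ^ (1 / (j : ℝ))) *
          (kn n ^ (n + 1) * fM (Lk m T S k b) (Tar m T S jx K k b) ε j)) := by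
          gcongr
      _ = _ := by ring
  calc ∑ r : Fin (2 ^ m), phi m T S jx K s δ ε (k + 1) j (2 ^ m * b + (r : ℕ))
      ≤ ∑ r : Fin (2 ^ m), (2 ^ (n * m) * kn n ^ (n + 1)) * phi m T S jx K s δ ε k j b :=
        Finset.sum_le_sum fun r _ => key r
    _ = _ := by
      rw [Finset.sum_const, Finset.card_univ, Fintype.card_fin, nsmul_eq_mul]
      push_cast
      ring

/-- change of exponent -/
theorem phi_exchange (hS : ∀ k, 0 < S k) {i j : ℕ} (hi : 1 ≤ i) (hij : i ≤ j) {k : ℕ}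
    {s δ ε : ℝ} (hδ : 0 < δ) (hε : 0 < ε) (hε1 : ε ≤ 1) (b : ℤ) :
    phi m T S jx K s δ ε k i b ≤
      (((n + 1 : ℕ) : ℝ) * (ε⁻¹) ^ ((n + 1) ^ 2)) * phi m T S jx K s δ ε k j b ∨
    (1 / 2 ^ (m * k)) ^ s ≤ phi m T S jx K s δ ε k j b := by
  obtain ⟨R, hR⟩ := exists_covol_bound (Lk_injective (m := m) (T := T) hS k b)
  have hk0 := hS k
  have hX : 0 < (δ / S k) ^ s := by positivity
  have hρ : (0 : ℝ) ≤ (1 / 2 ^ (m * k)) ^ s := by positivity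
  rcases fM_exchange (Lk_injective (m := m) (T := T) hS k b) (Tar m T S jx K k b) hR hε hε1 hi
    hij hX with h | h
  · left
    unfold phi
    calc (1 / (2 : ℝ) ^ (m * k)) ^ s * (((δ / S k) ^ s) ^ (1 / (i : ℝ)) *
          fM (Lk m T S k b) (Tar m T S jx K k b) ε i)
        ≤ (1 / (2 : ℝ) ^ (m * k)) ^ s * (((n + 1 : ℕ) : ℝ) * (ε⁻¹) ^ ((n + 1) ^ 2) *
          (((δ / S k) ^ s) ^ (1 / (j : ℝ)) * fM (Lk m T S k b) (Tar m T S jx K k b) ε j)) :=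
          mul_le_mul_of_nonneg_left h hρ
      _ = _ := by ring
  · right
    unfold phi
    calc (1 / (2 : ℝ) ^ (m * k)) ^ s = (1 / (2 : ℝ) ^ (m * k)) ^ s * 1 := (mul_one _).symm
      _ ≤ _ := mul_le_mul_of_nonneg_left h hρ

end

end Pool.Agent.Helper53.MF
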