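import Pool.Agent.Helper53.MF.Node
import Pool.Agent.Helper53.MF.Content

set_option autoImplicit false

/-!
# MP_743d72_nt (S17427): induction on the tree
-/

namespace Pool.Agent.Helper53.MF

open Submodule Module Set MeasureTheory

noncomputable section

/-- admissible paths -/
structure Adm (n m : ℕ) (S : ℕ → ℝ) (jx : ℕ → ℕ) (K : ℕ) : Prop where
  pos : ∀ k, 0 < S k
  anti : ∀ k < K, S (k + 1) ≤ S k
  low : ∀ k < K, S k ≤ 2 ^ (n * m) * S (k + 1)
  jpos : ∀ k ≤ K, 1 ≤ jx k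
  jle : ∀ k ≤ K, jx k ≤ n
  janti : ∀ k < K, jx (k + 1) ≤ jx k
  step : ∀ k < K, jx (k + 1) = jx k → S k = 2 ^ (jx k * m) * S (k + 1)

/-- the potential which counts the bad steps -/
def pot (n : ℕ) (jx : ℕ → ℕ) : ℕ → ℕ
  | 0 => 2 * n + 1
  | k + 1 => jx k + jx (k + 1)

variable {n m : ℕ} {T : Fin n → ℝ} {S : ℕ → ℝ} {jx : ℕ → ℕ} {K : ℕ}

theorem content_arc_le {s : ℝ} (hs : 0 < s) (k : ℕ) (b : ℤ) {A : Set ℝ} (hA : A ⊆ arc m k b) :
    content s A ≤ ENNReal.ofReal ((1 / 2 ^ (m * k)) ^ s) := by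
  refine (measure_mono hA).trans ?_
  unfold arc
  apply content_Ico_le hs
  · gcongr
    linarith
  · rw [add_div]
    linarith

theorem tree_bound {C : ℝ} (hC : 1 ≤ C) {m₀ : ℕ} (hm : m₀ ≤ m) (hmn : n + 3 ≤ m)
    (hpoly : ∀ m : ℕ, m₀ ≤ m →
      ∀ j : ℕ, 1 ≤ j → j ≤ n → ∀ b : ℕ → ℝ, 1 / 4 ≤ |b j| →
      (∀ i, j < i → i ≤ n → |b i| ≤ 2 ^ (n + 1) / 2 ^ m) →
      ∑ r ∈ Finset.range (2 ^ m),
        ((max 1 (2 ^ (j * m) * |∑ i ∈ Finset.range (n + 1), b i * ((r : ℝ) / 2 ^ m) ^ i|))⁻¹)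
          ^ (1 / (j : ℝ)) ≤ C * (m + 1))
    (hT : ∀ l, 0 < T l) (hadm : Adm n m S jx K)
    {s δ ε : ℝ} (hs : 0 < s) (hs1 : s ≤ 1) (hδ : 0 < δ) (hε : 0 < ε) (hε1 : ε ≤ 1)
    (hεs : ∀ j ≤ n, ε * (((n + 1 : ℕ) : ℝ) * ((2 ^ m : ℕ) : ℝ) * kn n ^ (n + 1) *
      (2 * kn n * (kn n ^ (n + 1) * (((2 ^ m : ℕ) : ℝ)) ^ j))) ≤ 1)
    (hend : S K ≤ 2 ^ (n * m + 1) * δ) :
    ∀ d k : ℕ, k + d = K → ∀ b : ℤ, content s (Fset m T S jx K k b) ≤
      ENNReal.ofReal (((2 ^ m * 2 ^ (n * m) * kn n ^ (n + 1)) *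
        (((n + 1 : ℕ) : ℝ) * (ε⁻¹) ^ ((n + 1) ^ 2))) ^ (pot n jx k) *
        (kn n ^ (n + 1 + 1) * (C * (m + 1)) + 2) ^ d * (2 ^ (n * m + 1) * kn n) *
        phi m T S jx K s δ ε k (jx k) b) := by
  have hS := hadm.pos
  set C1 : ℝ := 2 ^ m * 2 ^ (n * m) * kn n ^ (n + 1) with hC1
  set C2 : ℝ := ((n + 1 : ℕ) : ℝ) * (ε⁻¹) ^ ((n + 1) ^ 2) with hC2
  set B : ℝ := kn n ^ (n + 1 + 1) * (C * (m + 1)) + 2 with hB
  set A : ℝ := 2 ^ (n * m + 1) * kn n with hA
  have hkn := one_le_kn n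
  have hC1' : 1 ≤ C1 := by
    have h1 : (1 : ℝ) ≤ 2 ^ m := one_le_pow₀ (by norm_num)
    have h2 : (1 : ℝ) ≤ 2 ^ (n * m) := one_le_pow₀ (by norm_num)
    have h3 : (1 : ℝ) ≤ kn n ^ (n + 1) := one_le_pow₀ hkn
    exact one_le_mul_of_one_le_of_one_le (one_le_mul_of_one_le_of_one_le h1 h2) h3
  have hC2' : 1 ≤ C2 := by
    have h1 : (1 : ℝ) ≤ ((n + 1 : ℕ) : ℝ) := by push_cast; linarith [Nat.cast_nonneg (α := ℝ) n]
    have h2 : (1 : ℝ) ≤ (ε⁻¹) ^ ((n + 1) ^ 2) := one_le_pow₀ ((one_le_inv₀ hε).2 hε1)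
    exact one_le_mul_of_one_le_of_one_le h1 h2
  have hC12 : 1 ≤ C1 * C2 := one_le_mul_of_one_le_of_one_le hC1' hC2'
  have hB' : 1 ≤ B := by
    have : 0 ≤ kn n ^ (n + 1 + 1) * (C * (m + 1)) := by positivity
    linarith
  have hA' : 1 ≤ A := by
    have h1 : (1 : ℝ) ≤ 2 ^ (n * m + 1) := one_le_pow₀ (by norm_num)
    exact one_le_mul_of_one_le_of_one_le h1 hkn
  intro d
  induction d with
  | zero =>
    intro k hk b
    simp only [add_zero] at hk
    subst hk
    by_cases hF : (Fset m T S jx k k b).Nonempty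
    · obtain ⟨ξ, hξ, v, hv⟩ := hF
      have hvT : v ∈ Tar m T S jx k k b := ⟨ξ, hξ, hv⟩
      obtain ⟨R, hR⟩ := exists_covol_bound (Lk_injective (m := m) (T := T) hS k b)
      have h1 := le_fM (Lk_injective (m := m) (T := T) hS k b) hkn hvT hv.1
        (Lk_target hT hS le_rfl hvT) hR hε hε1 (hadm.jpos k le_rfl)
      refine (content_arc_le hs k b (fun x hx => hx.1)).trans ?_
      apply ENNReal.ofReal_le_ofReal
      have hX : (2 ^ (n * m + 1) : ℝ)⁻¹ ≤ ((δ / S k) ^ s) ^ (1 / (jx k : ℝ)) := by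
        have h2 : (2 ^ (n * m + 1) : ℝ)⁻¹ ≤ δ / S k := by
          rw [inv_eq_one_div, div_le_div_iff₀ (by positivity) (hS k)]
          linarith
        have h3 : (1 : ℝ) ≤ jx k := by exact_mod_cast hadm.jpos k le_rfl
        have hq : s * (1 / (jx k : ℝ)) ≤ 1 := by
          rw [mul_one_div, div_le_one (by linarith)]
          linarith
        have h4 : (0 : ℝ) < (2 ^ (n * m + 1) : ℝ)⁻¹ := by positivity
        have h5 : (2 ^ (n * m + 1) : ℝ)⁻¹ ≤ 1 := by
          apply inv_le_one_of_one_le₀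
          exact one_le_pow₀ (by norm_num)
        have hq0 : 0 ≤ s * (1 / (jx k : ℝ)) := by positivity
        have hSk := hS k
        rw [← Real.rpow_mul (by positivity)]
        calc (2 ^ (n * m + 1) : ℝ)⁻¹ = ((2 ^ (n * m + 1) : ℝ)⁻¹) ^ (1 : ℝ) :=
              (Real.rpow_one _).symm
          _ ≤ ((2 ^ (n * m + 1) : ℝ)⁻¹) ^ (s * (1 / (jx k : ℝ))) :=
              Real.rpow_le_rpow_of_exponent_ge h4 h5 hq
          _ ≤ (δ / S k) ^ (s * (1 / (jx k : ℝ))) := Real.rpow_le_rpow h4.le h2 hq0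
      have hfin : (1 / (2 : ℝ) ^ (m * k)) ^ s ≤ A * phi m T S jx k s δ ε k (jx k) b := by
        unfold phi
        have h0 : (0 : ℝ) ≤ (1 / 2 ^ (m * k)) ^ s := by positivity
        have h6 : (2 ^ (n * m + 1) : ℝ)⁻¹ * (kn n)⁻¹ ≤ ((δ / S k) ^ s) ^ (1 / (jx k : ℝ)) *
            fM (Lk m T S k b) (Tar m T S jx k k b) ε (jx k) := by
          have hSk := hS k
          exact mul_le_mul hX h1 (by positivity) (by positivity)
        have h7 : A * ((2 ^ (n * m + 1) : ℝ)⁻¹ * (kn n)⁻¹) = 1 := by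
          rw [hA]
          have : kn n ≠ 0 := by positivity
          field_simp
        calc (1 / (2 : ℝ) ^ (m * k)) ^ s
            = (1 / (2 : ℝ) ^ (m * k)) ^ s * (A * ((2 ^ (n * m + 1) : ℝ)⁻¹ * (kn n)⁻¹)) := by
              rw [h7, mul_one]
          _ ≤ (1 / (2 : ℝ) ^ (m * k)) ^ s * (A * (((δ / S k) ^ s) ^ (1 / (jx k : ℝ)) *
            fM (Lk m T S k b) (Tar m T S jx k k b) ε (jx k))) := by gcongr
          _ = _ := by ring
      refine hfin.trans ?_
      have hphi := phi_nonneg (m := m) (T := T) (jx := jx) (K := k) hS (s := s) hδ hε k (jx k) b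
      have h8 : 1 ≤ (C1 * C2) ^ pot n jx k := one_le_pow₀ hC12
      have h9 : 0 ≤ A * phi m T S jx k s δ ε k (jx k) b := by positivity
      calc A * phi m T S jx k s δ ε k (jx k) b = 1 * (A * phi m T S jx k s δ ε k (jx k) b) := by
            ring
        _ ≤ (C1 * C2) ^ pot n jx k * (A * phi m T S jx k s δ ε k (jx k) b) := by gcongr
        _ = _ := by ring
    · rw [Set.not_nonempty_iff_eq_empty] at hF
      rw [hF]
      simp
  | succ d ih =>
    intro k hk b
    have hkK : k < K := by omega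
    have hphi := phi_nonneg (m := m) (T := T) (jx := jx) (K := K) hS (s := s) hδ hε k (jx k) b
    have hG : 1 ≤ (C1 * C2) ^ pot n jx k * B ^ (d + 1) * A := by
      have h1 : 1 ≤ (C1 * C2) ^ pot n jx k := one_le_pow₀ hC12
      have h2 : 1 ≤ B ^ (d + 1) := one_le_pow₀ hB'
      exact one_le_mul_of_one_le_of_one_le (one_le_mul_of_one_le_of_one_le h1 h2) hA'
    -- the sum over the children
    have hchild : content s (Fset m T S jx K k b) ≤
        ENNReal.ofReal ((C1 * C2) ^ pot n jx (k + 1) * B ^ d * A *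
          ∑ r : Fin (2 ^ m), phi m T S jx K s δ ε (k + 1) (jx (k + 1)) (2 ^ m * b + (r : ℕ))) := by
      calc content s (Fset m T S jx K k b)
          ≤ content s (⋃ r : Fin (2 ^ m), Fset m T S jx K (k + 1) (2 ^ m * b + (r : ℕ))) :=
            measure_mono Fset_subset
        _ ≤ ∑' r : Fin (2 ^ m), content s (Fset m T S jx K (k + 1) (2 ^ m * b + (r : ℕ))) :=
            measure_iUnion_le _
        _ = ∑ r : Fin (2 ^ m), content s (Fset m T S jx K (k + 1) (2 ^ m * b + (r : ℕ))) :=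
            tsum_fintype _
        _ ≤ ∑ r : Fin (2 ^ m), ENNReal.ofReal ((C1 * C2) ^ pot n jx (k + 1) * B ^ d * A *
            phi m T S jx K s δ ε (k + 1) (jx (k + 1)) (2 ^ m * b + (r : ℕ))) :=
            Finset.sum_le_sum fun r _ => ih (k + 1) (by omega) _
        _ = _ := by
          rw [Finset.mul_sum, ENNReal.ofReal_sum_of_nonneg]
          intro r _
          have := phi_nonneg (m := m) (T := T) (jx := jx) (K := K) hS (s := s) hδ hε (k + 1)
            (jx (k + 1)) (2 ^ m * b + (r : ℕ))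
          positivity
    by_cases hgood : ∃ k', k = k' + 1 ∧ jx k' = jx k ∧ jx (k + 1) = jx k
    · obtain ⟨k', rfl, hj1, hj2⟩ := hgood
      refine hchild.trans (ENNReal.ofReal_le_ofReal ?_)
      have h1 := phi_good (s := s) (δ := δ) (ε := ε) (j := jx (k' + 1)) hm hmn hpoly hT hS
        hadm.anti (hadm.jpos _ (by omega)) (hadm.jle _ (by omega)) (k := k') (K := K)
        (by omega) rfl
        (by have := hadm.step k' (by omega) hj1.symm; rwa [hj1] at this)
        (by exact hadm.step (k' + 1) hkK hj2) hδ hε hε1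
        (hεs _ (hadm.jle _ (by omega))) b
      have hpot : pot n jx (k' + 1 + 1) ≤ pot n jx (k' + 1) := by
        simp only [pot]
        omega
      rw [hj2]
      calc (C1 * C2) ^ pot n jx (k' + 1 + 1) * B ^ d * A *
            ∑ r : Fin (2 ^ m), phi m T S jx K s δ ε (k' + 1 + 1) (jx (k' + 1))
              (2 ^ m * b + (r : ℕ))
          ≤ (C1 * C2) ^ pot n jx (k' + 1) * B ^ d * A *
            (B * phi m T S jx K s δ ε (k' + 1) (jx (k' + 1)) b) := by
            refine mul_le_mul ?_ h1 ?_ (by positivity)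
            · gcongr
            · exact Finset.sum_nonneg fun r _ => phi_nonneg hS hδ hε _ _ _
        _ = _ := by ring
    · have hpot : pot n jx (k + 1) + 1 ≤ pot n jx k := by
        cases k with
        | zero =>
          simp only [pot]
          have h1 := hadm.jle 0 (by omega)
          have h2 := hadm.jle (0 + 1) (by omega)
          omega
        | succ k' =>
          simp only [pot]
          have h1 := hadm.janti k' (by omega)
          have h2 := hadm.janti (k' + 1) (by omega)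
          by_contra hcon
          apply hgood
          exact ⟨k', rfl, by omega, by omega⟩
      rcases phi_exchange (m := m) (T := T) (jx := jx) (K := K) (s := s) (δ := δ) (k := k) hS
        (hadm.jpos (k + 1) (by omega)) (hadm.janti k hkK) hδ hε hε1 b with h | h
      · refine hchild.trans (ENNReal.ofReal_le_ofReal ?_)
        have h1 := phi_bad (m := m) (jx := jx) (K := K) (k := k) hT hS
          (hadm.jpos (k + 1) (by omega)) (hadm.low k hkK) hs.le hs1 hδ hε b
        calc (C1 * C2) ^ pot n jx (k + 1) * B ^ d * A *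
              ∑ r : Fin (2 ^ m), phi m T S jx K s δ ε (k + 1) (jx (k + 1)) (2 ^ m * b + (r : ℕ))
            ≤ (C1 * C2) ^ pot n jx (k + 1) * B ^ d * A *
              (C1 * (C2 * phi m T S jx K s δ ε k (jx k) b)) := by
              have h2 : ∑ r : Fin (2 ^ m), phi m T S jx K s δ ε (k + 1) (jx (k + 1))
                  (2 ^ m * b + (r : ℕ)) ≤ C1 * (C2 * phi m T S jx K s δ ε k (jx k) b) :=
                h1.trans (mul_le_mul_of_nonneg_left h (by positivity))
              gcongr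
          _ = (C1 * C2) ^ (pot n jx (k + 1) + 1) * B ^ d * A *
              phi m T S jx K s δ ε k (jx k) b := by ring
          _ ≤ (C1 * C2) ^ pot n jx k * B ^ (d + 1) * A * phi m T S jx K s δ ε k (jx k) b := by
              have e1 : (C1 * C2) ^ (pot n jx (k + 1) + 1) ≤ (C1 * C2) ^ pot n jx k :=
                pow_le_pow_right₀ hC12 hpot
              have e2 : B ^ d ≤ B ^ (d + 1) := pow_le_pow_right₀ hB' (Nat.le_succ d)
              gcongr
      · refine (content_arc_le hs k b (fun x hx => hx.1)).trans (ENNReal.ofReal_le_ofReal ?_)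
        calc (1 / (2 : ℝ) ^ (m * k)) ^ s ≤ 1 * phi m T S jx K s δ ε k (jx k) b := by
              rw [one_mul]; exact h
          _ ≤ _ := by gcongr

end

end Pool.Agent.Helper53.MF
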