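import Pool.Agent.Helper53.MF.GDefs

set_option autoImplicit false

/-!
# MP_743d72_nt (S17427): the dyadic tree
-/

namespace Pool.Agent.Helper53.MF

noncomputable section

/-- `D_i(k) = min_{k' ≤ k} S_{k'} 2^{m k' i}` -/
def DD (m : ℕ) (S : ℕ → ℝ) (k i : ℕ) : ℝ :=
  (Finset.range (k + 1)).inf' Finset.nonempty_range_add_one (fun k' => S k' * 2 ^ (m * k' * i))

theorem DD_le {m : ℕ} {S : ℕ → ℝ} {k k' : ℕ} (h : k' ≤ k) (i : ℕ) :
    DD m S k i ≤ S k' * 2 ^ (m * k' * i) := by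
  unfold DD
  exact Finset.inf'_le _ (by simp; omega)

theorem le_DD {m : ℕ} {S : ℕ → ℝ} {k i : ℕ} {a : ℝ}
    (h : ∀ k' ≤ k, a ≤ S k' * 2 ^ (m * k' * i)) : a ≤ DD m S k i := by
  unfold DD
  refine Finset.le_inf' _ _ fun k' hk' => h k' ?_
  simp at hk'; omega

theorem DD_pos {m : ℕ} {S : ℕ → ℝ} (hS : ∀ k, 0 < S k) (k i : ℕ) : 0 < DD m S k i := by
  unfold DD
  rw [Finset.lt_inf'_iff]
  intro k' _
  have := hS k'
  positivity

theorem DD_zero {m : ℕ} {S : ℕ → ℝ} : DD m S 0 = fun _ => S 0 := by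
  funext i
  apply le_antisymm
  · simpa using DD_le (m := m) (S := S) (k := 0) (le_refl 0) i
  · apply le_DD
    intro k' hk'
    obtain rfl : k' = 0 := by omega
    simp

theorem DD_index_zero {m : ℕ} {S : ℕ → ℝ} {k : ℕ} (h : ∀ k' < k, S (k' + 1) ≤ S k') :
    DD m S k 0 = S k := by
  apply le_antisymm
  · simpa using DD_le (m := m) (S := S) (le_refl k) 0
  · apply le_DD
    intro k' hk'
    simp only [mul_zero, pow_zero, mul_one]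
    have : ∀ d, k' + d ≤ k → S (k' + d) ≤ S k' := by
      intro d
      induction d with
      | zero => intro _; simp
      | succ d ih =>
        intro hd
        exact (h (k' + d) (by omega)).trans (ih (by omega))
    have h2 := this (k - k') (by omega)
    rwa [Nat.add_sub_cancel' hk'] at h2

theorem DD_anti {m : ℕ} {S : ℕ → ℝ} (k i : ℕ) : DD m S (k + 1) i ≤ DD m S k i :=
  le_DD fun _ hk' => DD_le (hk'.trans (Nat.le_succ k)) i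

theorem DD_shift {m : ℕ} {S : ℕ → ℝ} (hS : ∀ k, 0 < S k) (k : ℕ) {i l : ℕ} (hil : i ≤ l) :
    DD m S k l * (1 / 2 ^ (m * k)) ^ (l - i) ≤ DD m S k i := by
  apply le_DD
  intro k' hk'
  have h1 := DD_le (m := m) (S := S) hk' l
  have hS' := hS k'
  calc DD m S k l * (1 / 2 ^ (m * k)) ^ (l - i)
      ≤ (S k' * 2 ^ (m * k' * l)) * (1 / 2 ^ (m * k)) ^ (l - i) := by gcongr
    _ = (S k' * 2 ^ (m * k' * i)) * (2 ^ (m * k' * (l - i)) * (1 / 2 ^ (m * k)) ^ (l - i)) := by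
        have : m * k' * l = m * k' * i + m * k' * (l - i) := by
          rw [← Nat.mul_add, Nat.add_sub_cancel' hil]
        rw [this, pow_add]; ring
    _ ≤ (S k' * 2 ^ (m * k' * i)) * 1 := by
        gcongr
        rw [pow_mul, ← mul_pow]
        apply pow_le_one₀ (by positivity)
        rw [mul_one_div, div_le_one (by positivity)]
        exact pow_le_pow_right₀ (by norm_num) (Nat.mul_le_mul_left _ hk')
    _ = S k' * 2 ^ (m * k' * i) := mul_one _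

/-- the path condition -/
def good {n : ℕ} (m : ℕ) (T : Fin n → ℝ) (S : ℕ → ℝ) (jx : ℕ → ℕ) (K : ℕ)
    (v : Fin (n + 1) → ℤ) (ξ : ℝ) : Prop :=
  v ≠ 0 ∧ (∀ l : Fin n, |toR v l.succ| ≤ T l) ∧
    (∀ k ≤ K, ∀ i ≤ n, |tay (toR v) ξ i| ≤ S k * 2 ^ (m * k * i)) ∧
    ∀ k ≤ K, S k / 2 ≤ |tay (toR v) ξ (jx k)| * (1 / 2 ^ (m * k)) ^ (jx k)

/-- arcs of the dyadic tree -/
def arc (m k : ℕ) (b : ℤ) : Set ℝ := Set.Ico ((b : ℝ) / 2 ^ (m * k)) (((b : ℝ) + 1) / 2 ^ (m * k))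

/-- the part to be covered -/
def Fset {n : ℕ} (m : ℕ) (T : Fin n → ℝ) (S : ℕ → ℝ) (jx : ℕ → ℕ) (K : ℕ) (k : ℕ) (b : ℤ) :
    Set ℝ := {ξ | ξ ∈ arc m k b ∧ ∃ v, good m T S jx K v ξ}

/-- targets -/
def Tar {n : ℕ} (m : ℕ) (T : Fin n → ℝ) (S : ℕ → ℝ) (jx : ℕ → ℕ) (K : ℕ) (k : ℕ) (b : ℤ) :
    Set (Fin (n + 1) → ℤ) := {v | ∃ ξ ∈ arc m k b, good m T S jx K v ξ}

/-- the norm map at a node -/
def Lk {n : ℕ} (m : ℕ) (T : Fin n → ℝ) (S : ℕ → ℝ) (k : ℕ) (b : ℤ) :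
    (Fin (n + 1) → ℝ) →ₗ[ℝ] EuclideanSpace ℝ (Fin n ⊕ Fin (n + 1)) :=
  Lmap T (DD m S k) ((b : ℝ) / 2 ^ (m * k))

theorem mem_arc_child {m k : ℕ} {b : ℤ} {ξ : ℝ} (h : ξ ∈ arc m k b) :
    ∃ r : Fin (2 ^ m), ξ ∈ arc m (k + 1) (2 ^ m * b + (r : ℕ)) := by
  obtain ⟨h1, h2⟩ := h
  set e : ℤ := ⌊ξ * 2 ^ (m * (k + 1))⌋ with he
  have hp : (0 : ℝ) < 2 ^ (m * (k + 1)) := by positivity
  have hpk : (0 : ℝ) < 2 ^ (m * k) := by positivity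
  have hpm : (2 : ℝ) ^ (m * (k + 1)) = 2 ^ m * 2 ^ (m * k) := by
    rw [← pow_add]; ring_nf
  have h3 : (e : ℝ) ≤ ξ * 2 ^ (m * (k + 1)) := Int.floor_le _
  have h4 : ξ * 2 ^ (m * (k + 1)) < e + 1 := Int.lt_floor_add_one _
  rw [div_le_iff₀ hpk] at h1
  rw [lt_div_iff₀ hpk] at h2
  have h5 : 2 ^ m * b ≤ e := by
    rw [he, Int.le_floor]
    push_cast
    rw [hpm]
    nlinarith [pow_pos (two_pos : (0 : ℝ) < 2) m]
  have h6 : e < 2 ^ m * b + 2 ^ m := by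
    rw [he, Int.floor_lt]
    push_cast
    rw [hpm]
    nlinarith [pow_pos (two_pos : (0 : ℝ) < 2) m]
  refine ⟨⟨(e - 2 ^ m * b).toNat, ?_⟩, ?_⟩
  · rw [Int.toNat_lt (by linarith)]
    push_cast
    linarith
  · have h7 : (2 ^ m * b + (((e - 2 ^ m * b).toNat : ℕ) : ℤ) : ℤ) = e := by
      rw [Int.toNat_of_nonneg (by linarith)]; ring
    simp only [h7]
    constructor
    · rw [div_le_iff₀ hp]; exact h3
    · rw [lt_div_iff₀ hp]; exact h4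

theorem arc_child_subset {m k : ℕ} {b : ℤ} (r : Fin (2 ^ m)) :
    arc m (k + 1) (2 ^ m * b + (r : ℕ)) ⊆ arc m k b := by
  have hp : (0 : ℝ) < 2 ^ (m * (k + 1)) := by positivity
  have hpk : (0 : ℝ) < 2 ^ (m * k) := by positivity
  have hpm : (2 : ℝ) ^ (m * (k + 1)) = 2 ^ m * 2 ^ (m * k) := by
    rw [← pow_add]; ring_nf
  have hr : ((r : ℕ) : ℝ) + 1 ≤ 2 ^ m := by
    have := r.2
    exact_mod_cast this
  apply Set.Ico_subset_Ico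
  · rw [div_le_div_iff₀ hpk hp, hpm]
    push_cast
    have : (0 : ℝ) ≤ (r : ℕ) := Nat.cast_nonneg _
    nlinarith
  · rw [div_le_div_iff₀ hp hpk, hpm]
    push_cast
    nlinarith

theorem Tar_child {n : ℕ} {m : ℕ} {T : Fin n → ℝ} {S : ℕ → ℝ} {jx : ℕ → ℕ} {K : ℕ} {k : ℕ}
    {b : ℤ} (r : Fin (2 ^ m)) :
    Tar m T S jx K (k + 1) (2 ^ m * b + (r : ℕ)) ⊆ Tar m T S jx K k b := by
  rintro v ⟨ξ, hξ, hv⟩
  exact ⟨ξ, arc_child_subset r hξ, hv⟩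

theorem Fset_subset {n : ℕ} {m : ℕ} {T : Fin n → ℝ} {S : ℕ → ℝ} {jx : ℕ → ℕ} {K : ℕ} {k : ℕ}
    {b : ℤ} :
    Fset m T S jx K k b ⊆ ⋃ r : Fin (2 ^ m), Fset m T S jx K (k + 1) (2 ^ m * b + (r : ℕ)) := by
  rintro ξ ⟨hξ, hv⟩
  obtain ⟨r, hr⟩ := mem_arc_child hξ
  exact Set.mem_iUnion.2 ⟨r, hr, hv⟩

end

end Pool.Agent.Helper53.MF
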